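import Pool.Agent.Helper64_FR.FIX

/-!
# Matrices supported on `B × B` kill the `U_B`-invariant vectors
-/

open MeasureTheory Matrix Filter Topology

namespace Pool.Agent.Helper64_FR

namespace DERP

section Normed

attribute [local instance] Matrix.linftyOpNormedRing Matrix.linftyOpNormedAlgebra

theorem exp_mul_eq {n : ℕ} (X q : Matrix (Fin n) (Fin n) ℂ) (h : X * q = 0) :
    NormedSpace.exp X * q = q := by
  have h1 : HasSum (fun m : ℕ => ((m.factorial : ℂ)⁻¹) • X ^ m) (NormedSpace.exp X) :=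
    NormedSpace.exp_series_hasSum_exp' (𝕂 := ℂ) X
  have h2 := h1.mul_right q
  have h3 : HasSum (fun m : ℕ => (((m.factorial : ℂ)⁻¹) • X ^ m) * q) q := by
    have h4 : HasSum (fun m : ℕ => (((m.factorial : ℂ)⁻¹) • X ^ m) * q)
        ((fun m : ℕ => (((m.factorial : ℂ)⁻¹) • X ^ m) * q) 0) := by
      refine hasSum_single 0 ?_
      intro m hm
      obtain ⟨k, rfl⟩ := Nat.exists_eq_succ_of_ne_zero hm
      rw [Matrix.smul_mul, pow_succ, Matrix.mul_assoc, h, Matrix.mul_zero, smul_zero]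
    simpa using h4
  exact h2.unique h3

theorem mul_exp_eq {n : ℕ} (X q : Matrix (Fin n) (Fin n) ℂ) (h : q * X = 0) :
    q * NormedSpace.exp X = q := by
  have h1 : HasSum (fun m : ℕ => ((m.factorial : ℂ)⁻¹) • X ^ m) (NormedSpace.exp X) :=
    NormedSpace.exp_series_hasSum_exp' (𝕂 := ℂ) X
  have h2 := h1.mul_left q
  have h3 : HasSum (fun m : ℕ => q * (((m.factorial : ℂ)⁻¹) • X ^ m)) q := by
    have h4 : HasSum (fun m : ℕ => q * (((m.factorial : ℂ)⁻¹) • X ^ m))
        ((fun m : ℕ => q * (((m.factorial : ℂ)⁻¹) • X ^ m)) 0) := by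
      refine hasSum_single 0 ?_
      intro m hm
      obtain ⟨k, rfl⟩ := Nat.exists_eq_succ_of_ne_zero hm
      rw [Matrix.mul_smul, pow_succ', ← Matrix.mul_assoc, h, Matrix.zero_mul, smul_zero]
    simpa using h4
  exact h2.unique h3

end Normed

theorem exp_unitary {n : ℕ} (X : Matrix (Fin n) (Fin n) ℂ) (h : star X = -X) :
    NormedSpace.exp X ∈ Matrix.unitaryGroup (Fin n) ℂ := by
  rw [Matrix.mem_unitaryGroup_iff', Matrix.star_eq_conjTranspose, ← Matrix.exp_conjTranspose,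
    ← Matrix.star_eq_conjTranspose, h,
    ← Matrix.exp_add_of_commute _ _ (Commute.refl X).neg_left, neg_add_cancel,
    NormedSpace.exp_zero]

/-- the complementary projection -/
noncomputable def q {n : ℕ} (B : Finset (Fin n)) : Matrix (Fin n) (Fin n) ℂ :=
  Matrix.diagonal fun j => if j ∈ B then 0 else 1

/-- supported on `B × B` -/
def Supp {n : ℕ} (B : Finset (Fin n)) (X : Matrix (Fin n) (Fin n) ℂ) : Prop :=
  ∀ i j, (i ∉ B ∨ j ∉ B) → X i j = 0

theorem Supp.mul_q {n : ℕ} {B : Finset (Fin n)} {X : Matrix (Fin n) (Fin n) ℂ} (h : Supp B X) :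
    X * q B = 0 := by
  ext i j
  rw [q, Matrix.mul_diagonal]
  by_cases hj : j ∈ B
  · simp [hj]
  · simp [hj, h i j (Or.inr hj)]

theorem Supp.q_mul {n : ℕ} {B : Finset (Fin n)} {X : Matrix (Fin n) (Fin n) ℂ} (h : Supp B X) :
    q B * X = 0 := by
  ext i j
  rw [q, Matrix.diagonal_mul]
  by_cases hi : i ∈ B
  · simp [hi]
  · simp [hi, h i j (Or.inl hi)]

theorem exp_mem_UB {n : ℕ} {B : Finset (Fin n)} {X : Matrix (Fin n) (Fin n) ℂ} (h : Supp B X)
    (hs : star X = -X) :
    (⟨NormedSpace.exp X, exp_unitary X hs⟩ : UU n) ∈ UB B := by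
  show ∀ i j, (i ∉ B ∨ j ∉ B) → (NormedSpace.exp X) i j = if i = j then 1 else 0
  intro i j hij
  rcases hij with hi | hj
  · have h1 := congrFun (congrFun (mul_exp_eq X (q B) h.q_mul) i) j
    rw [q, Matrix.diagonal_mul, if_neg hi, one_mul] at h1
    rw [h1, Matrix.diagonal_apply]
    by_cases hij : i = j
    · simp [hij]
      subst hij
      exact hi
    · simp [hij]
  · have h1 := congrFun (congrFun (exp_mul_eq X (q B) h.mul_q) i) j
    rw [q, Matrix.mul_diagonal, if_neg hj, mul_one] at h1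
    rw [h1, Matrix.diagonal_apply]
    by_cases hij : i = j
    · subst hij
      simp [hj]
    · simp [hij]

theorem deriv_kill {A : Type*} [NormedRing A] [NormedAlgebra ℂ A] [CompleteSpace A] (Y P : A)
    (key : ∀ t : ℝ, NormedSpace.exp ((t : ℂ) • Y) * P = P) : Y * P = 0 := by
  have hd0 : HasDerivAt (fun u : ℂ => NormedSpace.exp (u • Y))
      (NormedSpace.exp ((((0 : ℝ) : ℂ)) • Y) * Y) ((0 : ℝ) : ℂ) :=
    hasDerivAt_exp_smul_const (𝕂 := ℂ) Y (((0 : ℝ) : ℂ))
  have hd1 : HasDerivAt (fun u : ℝ => NormedSpace.exp ((u : ℂ) • Y))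
      (NormedSpace.exp ((((0 : ℝ) : ℂ)) • Y) * Y) (0 : ℝ) := by
    have hc : HasDerivAt (fun u : ℝ => (u : ℂ)) 1 (0 : ℝ) := Complex.ofRealCLM.hasDerivAt
    have := HasDerivAt.scomp (0 : ℝ) hd0 hc
    rw [one_smul] at this
    exact this
  have hd2 : HasDerivAt (fun u : ℝ => NormedSpace.exp ((u : ℂ) • Y) * P)
      (NormedSpace.exp ((((0 : ℝ) : ℂ)) • Y) * Y * P) (0 : ℝ) := hd1.mul_const _
  have hd3 : HasDerivAt (fun u : ℝ => NormedSpace.exp ((u : ℂ) • Y) * P) 0 (0 : ℝ) := by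
    have : (fun u : ℝ => NormedSpace.exp ((u : ℂ) • Y) * P) = fun _ => P := by
      funext u
      exact key u
    rw [this]
    exact hasDerivAt_const _ _
  have h4 := hd2.unique hd3
  simpa [NormedSpace.exp_zero] using h4

theorem comb_kill {A : Type*} [Ring A] [Algebra ℂ A] (Y Z W P : A) (a b : ℂ)
    (h : W = a • Y + b • Z) (h1 : Y * P = 0) (h2 : Z * P = 0) : W * P = 0 := by
  rw [h, add_mul, smul_mul_assoc, smul_mul_assoc, h1, h2, smul_zero, smul_zero, add_zero]

theorem skew_kill (n : ℕ) (ρ : URep n)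
    (D : Matrix (Fin n) (Fin n) ℂ →ₗ[ℂ] (ρ.Sp →L[ℂ] ρ.Sp)) (hD : IsDer ρ D)
    (B : Finset (Fin n)) (hF : ∀ h ∈ UB B, ρ.op h * ρ.P B = ρ.P B)
    (X : Matrix (Fin n) (Fin n) ℂ) (hX : Supp B X) (hs : star X = -X) :
    D X * ρ.P B = 0 := by
  refine deriv_kill (D X) (ρ.P B) ?_
  intro t
  have hst : Supp B ((t : ℂ) • X) := by
    intro i j hij
    simp [hX i j hij]
  have hss : star ((t : ℂ) • X) = -((t : ℂ) • X) := by
    rw [star_smul, hs, smul_neg]
    simp
  have h1 := hD.exp_eq ((t : ℂ) • X) ⟨NormedSpace.exp ((t : ℂ) • X), exp_unitary _ hss⟩ hss rfl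
  have h2 := hF _ (exp_mem_UB hst hss)
  rw [h1, map_smul] at h2
  exact h2

end DERP

open DERP in
theorem DERP_proof (hFIX : Stmt_FIX) : Stmt_DERP := by
  intro n ρ D hD B i j hi hj
  have hF := (hFIX n ρ B).1
  have h1 : D (EE i j - EE j i) * ρ.P B = 0 := by
    refine skew_kill n ρ D hD B hF _ ?_ ?_
    · intro k l hkl
      have e1 : ¬ (i = k ∧ j = l) := by
        rintro ⟨rfl, rfl⟩
        tauto
      have e2 : ¬ (j = k ∧ i = l) := by
        rintro ⟨rfl, rfl⟩
        tauto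
      rw [Matrix.sub_apply, EE, EE, Matrix.single_apply, Matrix.single_apply, if_neg e1, if_neg e2,
        sub_zero]
    · rw [star_sub, EE, EE, Matrix.star_eq_conjTranspose, Matrix.star_eq_conjTranspose,
        Matrix.conjTranspose_single, Matrix.conjTranspose_single]
      simp
  have h2 : D (Complex.I • (EE i j + EE j i)) * ρ.P B = 0 := by
    refine skew_kill n ρ D hD B hF _ ?_ ?_
    · intro k l hkl
      have e1 : ¬ (i = k ∧ j = l) := by
        rintro ⟨rfl, rfl⟩
        tauto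
      have e2 : ¬ (j = k ∧ i = l) := by
        rintro ⟨rfl, rfl⟩
        tauto
      rw [Matrix.smul_apply, Matrix.add_apply, EE, EE, Matrix.single_apply, Matrix.single_apply,
        if_neg e1, if_neg e2, add_zero, smul_zero]
    · rw [star_smul, star_add, EE, EE, Matrix.star_eq_conjTranspose, Matrix.star_eq_conjTranspose,
        Matrix.conjTranspose_single, Matrix.conjTranspose_single]
      simp [add_comm]
  have h3 : EE i j = (1 / 2 : ℂ) • (EE i j - EE j i) +
      (-(Complex.I) / 2) • (Complex.I • (EE i j + EE j i)) := by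
    rw [smul_smul]
    have : -Complex.I / 2 * Complex.I = 1 / 2 := by
      have := Complex.I_mul_I
      linear_combination (-1 / 2 : ℂ) * this
    rw [this, ← smul_add]
    have e : EE i j - EE j i + (EE i j + EE j i) = (2 : ℂ) • EE i j := by
      rw [two_smul]
      abel
    rw [e, smul_smul]
    norm_num
  refine comb_kill _ _ _ _ (1 / 2 : ℂ) (-(Complex.I) / 2) ?_ h1 h2
  conv_lhs => rw [h3]
  rw [map_add, map_smul, map_smul]

end Pool.Agent.Helper64_FR
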