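import Pool.Agent.Helper64_FR.Stmt

/-!
# The average over `U_B` is the orthogonal projection onto the invariant vectors
-/

open MeasureTheory Matrix Filter Topology

namespace Pool.Agent.Helper64_FR

namespace FIX

variable {n : ℕ}

theorem op_mul (ρ : URep n) (g h : UU n) : ρ.op (g * h) = ρ.op g * ρ.op h := by
  unfold URep.op
  rw [← map_mul]
  congr 1
  unfold URep.mat
  rw [map_mul]
  rfl

theorem op_one (ρ : URep n) : ρ.op 1 = 1 := by
  unfold URep.op URep.mat
  rw [map_one]
  exact map_one _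

theorem op_inv (ρ : URep n) (g : UU n) : ρ.op g⁻¹ = star (ρ.op g) := by
  unfold URep.op
  rw [← map_star]
  congr 1
  unfold URep.mat
  rw [map_inv]
  rfl

theorem inner_op_left (ρ : URep n) (g : UU n) (x y : ρ.Sp) :
    inner ℂ (ρ.op g x) y = inner ℂ x (ρ.op g⁻¹ y) := by
  rw [op_inv, ContinuousLinearMap.star_eq_adjoint, ContinuousLinearMap.adjoint_inner_right]

theorem inner_toCLM {d : ℕ} (M : Matrix (Fin d) (Fin d) ℂ) (x y : EuclideanSpace ℂ (Fin d)) :
    inner ℂ x (Matrix.toEuclideanCLM (n := Fin d) (𝕜 := ℂ) M y) =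
      ∑ a, ∑ b, M a b * (y b * starRingEnd ℂ (x a)) := by
  rw [PiLp.inner_apply]
  refine Finset.sum_congr rfl fun a _ => ?_
  have h : (Matrix.toEuclideanCLM (n := Fin d) (𝕜 := ℂ) M y) a = ∑ b, M a b * y b := rfl
  rw [RCLike.inner_apply, h, Finset.sum_mul]
  refine Finset.sum_congr rfl fun b _ => ?_
  ring

instance instFiniteHaarB (B : Finset (Fin n)) : IsProbabilityMeasure (haarB B) := by
  constructor
  have := @Measure.haarMeasure_self (UB B) _ _ _ _ _ ⊤
  unfold haarB
  simpa using this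

instance instHaarB (B : Finset (Fin n)) : (haarB B).IsMulLeftInvariant := by
  unfold haarB
  infer_instance

theorem continuous_mat (ρ : URep n) (a b : Fin ρ.dim) : Continuous fun g : UU n => ρ.mat g a b := by
  unfold URep.mat
  exact (continuous_apply_apply a b).comp (continuous_subtype_val.comp ρ.cont)

theorem integrable_mat (ρ : URep n) (B : Finset (Fin n)) (a b : Fin ρ.dim) :
    Integrable (fun g : UB B => ρ.mat (g : UU n) a b) (haarB B) := by
  have hc : Continuous fun g : UB B => ρ.mat (g : UU n) a b :=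
    (continuous_mat ρ a b).comp continuous_subtype_val
  exact hc.integrable_of_hasCompactSupport (HasCompactSupport.of_compactSpace _)

theorem inner_P (ρ : URep n) (B : Finset (Fin n)) (x y : ρ.Sp) :
    inner ℂ x (ρ.P B y) = ∫ g : UB B, inner ℂ x (ρ.op (g : UU n) y) ∂(haarB B) := by
  unfold URep.P URep.op
  simp_rw [inner_toCLM]
  rw [integral_finsetSum]
  · refine Finset.sum_congr rfl fun a _ => ?_
    rw [integral_finsetSum]
    · refine Finset.sum_congr rfl fun b _ => ?_
      rw [integral_mul_const]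
      rfl
    · intro b _
      exact (integrable_mat ρ B a b).mul_const _
  · intro a _
    refine integrable_finsetSum _ fun b _ => ?_
    exact (integrable_mat ρ B a b).mul_const _

theorem op_P (ρ : URep n) (B : Finset (Fin n)) (h : UU n) (hh : h ∈ UB B) :
    ρ.op h * ρ.P B = ρ.P B := by
  ext1 y
  refine ext_inner_left ℂ fun x => ?_
  have h1 : inner ℂ x ((ρ.op h * ρ.P B) y) = inner ℂ (ρ.op h⁻¹ x) (ρ.P B y) := by
    rw [inner_op_left, inv_inv]
    rfl
  rw [h1, inner_P, inner_P]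
  have h2 : ∀ g : UB B, inner ℂ (ρ.op h⁻¹ x) (ρ.op (g : UU n) y) =
      inner ℂ x (ρ.op (((⟨h, hh⟩ : UB B) * g : UB B) : UU n) y) := by
    intro g
    rw [inner_op_left, inv_inv, Subgroup.coe_mul, op_mul]
    rfl
  simp_rw [h2]
  exact integral_mul_left_eq_self (μ := haarB B)
    (fun g : UB B => inner ℂ x (ρ.op (g : UU n) y)) ⟨h, hh⟩

theorem P_inv (ρ : URep n) (B : Finset (Fin n)) (x : ρ.Sp) (hx : ∀ h ∈ UB B, ρ.op h x = x) :
    ρ.P B x = x := by
  refine ext_inner_left ℂ fun z => ?_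
  rw [inner_P]
  have h2 : ∀ g : UB B, inner ℂ z (ρ.op (g : UU n) x) = inner ℂ z x := by
    intro g
    rw [hx _ g.2]
  simp_rw [h2]
  simp

theorem inner_P_of_inv (ρ : URep n) (B : Finset (Fin n)) (x y : ρ.Sp)
    (hx : ∀ h ∈ UB B, ρ.op h x = x) : inner ℂ x (ρ.P B y) = inner ℂ x y := by
  rw [inner_P]
  have h2 : ∀ g : UB B, inner ℂ x (ρ.op (g : UU n) y) = inner ℂ x y := by
    intro g
    have := inner_op_left ρ (g : UU n)⁻¹ x y
    rw [inv_inv, hx _ ((UB B).inv_mem g.2)] at this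
    exact this.symm
  simp_rw [h2]
  simp

theorem P_apply_inv (ρ : URep n) (B : Finset (Fin n)) (x : ρ.Sp) :
    ∀ h ∈ UB B, ρ.op h (ρ.P B x) = ρ.P B x := by
  intro h hh
  have := op_P ρ B h hh
  exact congrArg (fun T : ρ.Sp →L[ℂ] ρ.Sp => T x) this

theorem P_idem (ρ : URep n) (B : Finset (Fin n)) : ρ.P B * ρ.P B = ρ.P B := by
  ext1 y
  exact P_inv ρ B _ (P_apply_inv ρ B y)

theorem P_star (ρ : URep n) (B : Finset (Fin n)) : star (ρ.P B) = ρ.P B := by
  have h1 : star (ρ.P B) * ρ.P B = star (ρ.P B) := by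
    ext1 y
    refine ext_inner_left ℂ fun x => ?_
    show inner ℂ x (star (ρ.P B) (ρ.P B y)) = inner ℂ x (star (ρ.P B) y)
    rw [ContinuousLinearMap.star_eq_adjoint, ContinuousLinearMap.adjoint_inner_right,
      ContinuousLinearMap.adjoint_inner_right]
    exact inner_P_of_inv ρ B _ y (P_apply_inv ρ B x)
  have h2 : star (star (ρ.P B) * ρ.P B) = star (ρ.P B) * ρ.P B := by
    rw [star_mul, star_star]
  calc star (ρ.P B) = star (ρ.P B) * ρ.P B := h1.symm
    _ = star (star (ρ.P B) * ρ.P B) := h2.symm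
    _ = star (star (ρ.P B)) := by rw [h1]
    _ = ρ.P B := star_star _

end FIX

theorem FIX_proof : Stmt_FIX := fun _ ρ B =>
  ⟨fun h hh => FIX.op_P ρ B h hh, fun x hx => FIX.P_inv ρ B x hx, FIX.P_star ρ B, FIX.P_idem ρ B⟩

end Pool.Agent.Helper64_FR
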