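import Pool.Agent.Helper64_FR.Stmt

/-!
# Basic facts about the operators of a representation
-/

open MeasureTheory Matrix Filter Topology

namespace Pool.Agent.Helper64_FR

namespace URep

variable {n : ℕ} (ρ : URep n)

theorem mat_one : ρ.mat 1 = 1 := by
  simp [mat]

theorem mat_mul (g h : UU n) : ρ.mat (g * h) = ρ.mat g * ρ.mat h := by
  simp [mat]

theorem mat_inv (g : UU n) : ρ.mat g⁻¹ = star (ρ.mat g) := by
  rw [mat, map_inv]
  rfl

theorem op_one : ρ.op 1 = 1 := by
  rw [op, mat_one, map_one]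

theorem op_mul (g h : UU n) : ρ.op (g * h) = ρ.op g * ρ.op h := by
  rw [op, mat_mul, map_mul]
  rfl

theorem op_star (g : UU n) : star (ρ.op g) = ρ.op g⁻¹ := by
  rw [op, op, mat_inv, map_star]

theorem op_inv_mul (g : UU n) : ρ.op g⁻¹ * ρ.op g = 1 := by
  rw [← op_mul, inv_mul_cancel, op_one]

theorem op_mul_inv (g : UU n) : ρ.op g * ρ.op g⁻¹ = 1 := by
  rw [← op_mul, mul_inv_cancel, op_one]

theorem op_toLp (g : UU n) (x : Fin ρ.dim → ℂ) :
    ρ.op g (WithLp.toLp 2 x) = WithLp.toLp 2 (ρ.mat g *ᵥ x) := rfl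

theorem P_toLp (B : Finset (Fin n)) (x : Fin ρ.dim → ℂ) :
    ρ.P B (WithLp.toLp 2 x) = WithLp.toLp 2 (ρ.avg B *ᵥ x) := rfl

theorem norm_op_apply (g : UU n) (x : ρ.Sp) : ‖ρ.op g x‖ = ‖x‖ := by
  have h : (inner ℂ (ρ.op g x) (ρ.op g x) : ℂ) = inner ℂ x x := by
    rw [← ContinuousLinearMap.adjoint_inner_right, ← ContinuousLinearMap.star_eq_adjoint,
      op_star, ← mul_apply_eq_comp, op_inv_mul, one_apply_eq_self]
  rw [inner_self_eq_norm_sq_to_K, inner_self_eq_norm_sq_to_K] at h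
  have h2 : ‖ρ.op g x‖ ^ 2 = ‖x‖ ^ 2 := by exact_mod_cast h
  exact (sq_eq_sq₀ (norm_nonneg _) (norm_nonneg _)).mp h2

theorem norm_op_le (g : UU n) : ‖ρ.op g‖ ≤ 1 :=
  ContinuousLinearMap.opNorm_le_bound _ zero_le_one fun x => by
    rw [norm_op_apply, one_mul]

theorem continuous_mat : Continuous ρ.mat := continuous_subtype_val.comp ρ.cont

end URep

/-- A self-adjoint idempotent operator has norm at most one. -/
theorem norm_le_one_of_proj {H : Type*} [NormedAddCommGroup H] [InnerProductSpace ℂ H]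
    [CompleteSpace H] {P : H →L[ℂ] H} (h1 : star P = P) (h2 : P * P = P) : ‖P‖ ≤ 1 := by
  have h : ‖star P * P‖ = ‖P‖ * ‖P‖ := CStarRing.norm_star_mul_self
  rw [h1, h2] at h
  by_contra hc
  push Not at hc
  nlinarith

/-- Conjugating a matrix unit. -/
theorem conj_EE {n : ℕ} (A : Matrix (Fin n) (Fin n) ℂ) (i j : Fin n) :
    A * EE i j * star A = ∑ k, ∑ l, (A k i * starRingEnd ℂ (A l j)) • EE k l := by
  ext p q
  rw [Matrix.sum_apply]
  simp only [Matrix.sum_apply, Matrix.smul_apply, Matrix.single_apply, smul_eq_mul, mul_ite,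
    mul_one, mul_zero]
  rw [Finset.sum_eq_single p, Finset.sum_eq_single q]
  · simp only [and_self, if_true]
    rw [Matrix.mul_apply, Finset.sum_eq_single j]
    · rw [Matrix.mul_apply, Finset.sum_eq_single i]
      · simp [Matrix.star_apply]
      · intro b _ hb
        simp [Ne.symm hb]
      · simp
    · intro b _ hb
      rw [Matrix.mul_apply, Finset.sum_eq_zero, zero_mul]
      intro x _
      simp [Ne.symm hb]
    · simp
  · intro b _ hb
    simp [hb]
  · simp
  · intro b _ hb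
    simp [hb]
  · simp

end Pool.Agent.Helper64_FR
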