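import Mathlib

/-!
# Projections onto kernels
-/

namespace Pool.Agent.Helper64_FR

variable {H : Type*} [NormedAddCommGroup H] [InnerProductSpace ℂ H] [CompleteSpace H]

instance instKerHasProj (T : H →L[ℂ] H) :
    (LinearMap.ker (T : H →ₗ[ℂ] H)).HasOrthogonalProjection := by
  have : CompleteSpace (LinearMap.ker (T : H →ₗ[ℂ] H)) :=
    (T.isClosed_ker).completeSpace_coe
  infer_instance

/-- The orthogonal projection onto the kernel of `T`. -/
noncomputable def kerP (T : H →L[ℂ] H) : H →L[ℂ] H :=
  (LinearMap.ker (T : H →ₗ[ℂ] H)).starProjection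

theorem kerP_idem (T : H →L[ℂ] H) : kerP T * kerP T = kerP T :=
  Submodule.isIdempotentElem_starProjection _

theorem kerP_star (T : H →L[ℂ] H) : star (kerP T) = kerP T := by
  rw [ContinuousLinearMap.star_eq_adjoint]
  refine (ContinuousLinearMap.eq_adjoint_iff _ _).mpr (fun x y => ?_) |>.symm
  exact Submodule.inner_starProjection_left_eq_right _ x y

theorem apply_kerP (T : H →L[ℂ] H) (x : H) : T (kerP T x) = 0 := by
  have : kerP T x ∈ LinearMap.ker (T : H →ₗ[ℂ] H) := Submodule.starProjection_apply_mem _ x
  simpa using this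

theorem mul_kerP (T : H →L[ℂ] H) : T * kerP T = 0 := by
  ext x
  exact apply_kerP T x

theorem kerP_apply_of_mem {T : H →L[ℂ] H} {x : H} (h : T x = 0) : kerP T x = x :=
  Submodule.starProjection_eq_self_iff.mpr (by simpa using h)

theorem kerP_mul_of {T S : H →L[ℂ] H} (h : T * S = 0) : kerP T * S = S := by
  ext x
  rw [mul_apply_eq_comp]
  apply kerP_apply_of_mem
  rw [← mul_apply_eq_comp, h, zero_apply]

/-- An operator commuting, together with its adjoint, with `T` commutes with the projection. -/
theorem kerP_comm {T S : H →L[ℂ] H} (h1 : S * T = T * S) (h2 : star S * T = T * star S) :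
    S * kerP T = kerP T * S := by
  have e1 : kerP T * (S * kerP T) = S * kerP T :=
    kerP_mul_of (by rw [← mul_assoc, ← h1, mul_assoc, mul_kerP, mul_zero])
  have e2 : kerP T * (star S * kerP T) = star S * kerP T :=
    kerP_mul_of (by rw [← mul_assoc, ← h2, mul_assoc, mul_kerP, mul_zero])
  have e3 := congrArg star e2
  simp only [star_mul, star_star, kerP_star] at e3
  rw [← e1, ← mul_assoc, e3]

/-- Conjugation by a unitary. -/
theorem kerP_conj {U T T' : H →L[ℂ] H} (hU : star U * U = 1) (hU' : U * star U = 1)
    (h : U * T = T' * U) : U * kerP T = kerP T' * U := by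
  have h' : star U * T' = T * star U := by
    calc star U * T' = star U * T' * (U * star U) := by rw [hU', mul_one]
      _ = star U * (T' * U) * star U := by simp only [mul_assoc]
      _ = star U * (U * T) * star U := by rw [h]
      _ = (star U * U) * T * star U := by simp only [mul_assoc]
      _ = T * star U := by rw [hU, one_mul]
  have e1 : kerP T' * (U * kerP T) = U * kerP T :=
    kerP_mul_of (by rw [← mul_assoc, ← h, mul_assoc, mul_kerP, mul_zero])
  have e2 : kerP T * (star U * kerP T') = star U * kerP T' :=
    kerP_mul_of (by rw [← mul_assoc, ← h', mul_assoc, mul_kerP, mul_zero])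
  have e3 := congrArg star e2
  simp only [star_mul, star_star, kerP_star] at e3
  -- e3 : kerP T' * U * kerP T = kerP T' * U
  rw [← e1, ← mul_assoc, e3]

end Pool.Agent.Helper64_FR
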