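import Pool.Agent.Helper64_FR.Basic
import Pool.Agent.Helper64_FR.Ker

/-!
# Reflections in `U_B` and the rotation lemma
-/

open Matrix

namespace Pool.Agent.Helper64_FR

section refl

variable {n : ℕ}

/-- the vector `e_i + t e_j` -/
def yv (i j : Fin n) (t : ℝ) : Fin n → ℂ := Pi.single i 1 + Pi.single j (t : ℂ)

/-- the reflection in `e_i + t e_j` -/
noncomputable def rf (i j : Fin n) (t : ℝ) : Matrix (Fin n) (Fin n) ℂ :=
  1 - ((2 / (1 + t ^ 2) : ℝ) : ℂ) • Matrix.vecMulVec (yv i j t) (yv i j t)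

theorem yv_dot {i j : Fin n} (hij : i ≠ j) (t : ℝ) :
    yv i j t ⬝ᵥ yv i j t = ((1 + t ^ 2 : ℝ) : ℂ) := by
  rw [yv, dotProduct_add, dotProduct_single, dotProduct_single]
  simp only [Pi.add_apply, Pi.single_eq_same, Pi.single_eq_of_ne hij, Pi.single_eq_of_ne hij.symm]
  push_cast
  ring

theorem yv_star (i j : Fin n) (t : ℝ) (k : Fin n) :
    starRingEnd ℂ (yv i j t k) = yv i j t k := by
  simp only [yv, Pi.add_apply, map_add, Pi.single_apply]
  split_ifs <;> simp

theorem rf_star (i j : Fin n) (t : ℝ) : star (rf i j t) = rf i j t := by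
  ext p q
  rw [Matrix.star_apply, rf, Matrix.sub_apply, Matrix.sub_apply, Matrix.smul_apply,
    Matrix.smul_apply, Matrix.vecMulVec_apply, Matrix.vecMulVec_apply]
  simp only [RCLike.star_def, map_sub, smul_eq_mul, map_mul, yv_star, Complex.conj_ofReal,
    Matrix.one_apply]
  have : (if q = p then (1 : ℂ) else 0) = if p = q then 1 else 0 := by
    simp only [eq_comm]
  rw [apply_ite (starRingEnd ℂ), map_one, map_zero, this]
  ring

theorem rf_mul {i j : Fin n} (hij : i ≠ j) (t : ℝ) : rf i j t * rf i j t = 1 := by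
  have h0 : (1 + t ^ 2 : ℝ) ≠ 0 := by positivity
  set c : ℂ := ((2 / (1 + t ^ 2) : ℝ) : ℂ) with hc
  set M := Matrix.vecMulVec (yv i j t) (yv i j t) with hM
  have hMM : M * M = ((1 + t ^ 2 : ℝ) : ℂ) • M := by
    rw [hM, Matrix.vecMulVec_mul_vecMulVec, yv_dot hij]
    ext p q
    simp only [Matrix.vecMulVec_apply, Matrix.smul_apply, Pi.smul_apply, smul_eq_mul]
    ring
  have hcc : c * ((1 + t ^ 2 : ℝ) : ℂ) = 2 := by
    rw [hc, ← Complex.ofReal_mul, div_mul_cancel₀ _ h0]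
    norm_num
  show (1 - c • M) * (1 - c • M) = 1
  rw [sub_mul, mul_sub, mul_sub, one_mul, one_mul, mul_one, smul_mul_smul_comm, hMM, smul_smul]
  have : c * c * ((1 + t ^ 2 : ℝ) : ℂ) = 2 * c := by
    rw [mul_assoc, hcc, mul_comm]
  rw [this]
  have e : (2 * c) • M = c • M + c • M := by rw [two_mul, add_smul]
  rw [e]
  abel

theorem rf_mem {i j : Fin n} (hij : i ≠ j) (t : ℝ) :
    rf i j t ∈ Matrix.unitaryGroup (Fin n) ℂ := by
  rw [Matrix.mem_unitaryGroup_iff, rf_star, rf_mul hij]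

/-- the reflection as an element of the unitary group -/
noncomputable def rfU {i j : Fin n} (hij : i ≠ j) (t : ℝ) : UU n := ⟨rf i j t, rf_mem hij t⟩

theorem rfU_mul {i j : Fin n} (hij : i ≠ j) (t : ℝ) : rfU hij t * rfU hij t = 1 :=
  Subtype.ext (rf_mul hij t)

theorem rfU_inv {i j : Fin n} (hij : i ≠ j) (t : ℝ) : (rfU hij t)⁻¹ = rfU hij t :=
  inv_eq_of_mul_eq_one_right (rfU_mul hij t)

theorem rf_apply (i j : Fin n) (t : ℝ) (p q : Fin n) :
    rf i j t p q = (if p = q then 1 else 0) -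
      ((2 / (1 + t ^ 2) : ℝ) : ℂ) * (yv i j t p * yv i j t q) := by
  rw [rf, Matrix.sub_apply, Matrix.smul_apply, Matrix.vecMulVec_apply, Matrix.one_apply,
    smul_eq_mul]

theorem yv_other {i j l : Fin n} (t : ℝ) (h1 : l ≠ i) (h2 : l ≠ j) : yv i j t l = 0 := by
  simp [yv, h1, h2]

theorem rfU_mem {i j : Fin n} (hij : i ≠ j) (t : ℝ) {B : Finset (Fin n)} (hi : i ∈ B)
    (hj : j ∈ B) : rfU hij t ∈ UB B := by
  have key : ∀ p q : Fin n, (p ∉ B ∨ q ∉ B) →
      rf i j t p q = if p = q then 1 else 0 := by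
    intro p q h
    rw [rf_apply]
    have hz : yv i j t p * yv i j t q = 0 := by
      rcases h with h | h
      · rw [yv_other (l := p) t (by rintro rfl; exact h hi) (by rintro rfl; exact h hj), zero_mul]
      · rw [yv_other (l := q) t (by rintro rfl; exact h hi) (by rintro rfl; exact h hj), mul_zero]
    rw [hz, mul_zero, sub_zero]
  exact key

end refl

section rot

variable {n : ℕ} {H : Type} [NormedAddCommGroup H] [InnerProductSpace ℂ H] [CompleteSpace H]
  (L : LimData n H)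

namespace LimData

theorem star_U_mul (g : UU n) : star (L.U g) * L.U g = 1 := by
  rw [L.U_star, ← L.U_mul, inv_mul_cancel, L.U_one]

theorem U_mul_star (g : UU n) : L.U g * star (L.U g) = 1 := by
  rw [L.U_star, ← L.U_mul, mul_inv_cancel, L.U_one]

theorem U_inner (g : UU n) (x y : H) : (inner ℂ (L.U g x) (L.U g y) : ℂ) = inner ℂ x y := by
  rw [← ContinuousLinearMap.adjoint_inner_right, ← ContinuousLinearMap.star_eq_adjoint,
    ← mul_apply_eq_comp, L.star_U_mul, one_apply_eq_self]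

/-- the linear combination of two symbols -/
noncomputable def comb (i j l : Fin n) (s c : ℝ) : H →L[ℂ] H :=
  (s : ℂ) • L.a i l + (c : ℂ) • L.a j l

theorem conj_rf {i j : Fin n} (hij : i ≠ j) (t : ℝ) {l : Fin n} (hli : l ≠ i) (hlj : l ≠ j)
    (p : Fin n) : L.U (rfU hij t) * L.a p l =
      (∑ k, (rf i j t k p) • L.a k l) * L.U (rfU hij t) := by
  rw [L.U_conj]
  congr 1
  refine Finset.sum_congr rfl fun k _ => ?_
  rw [Finset.sum_eq_single l]
  · have : (rfU hij t : Matrix (Fin n) (Fin n) ℂ) l l = 1 := by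
      show rf i j t l l = 1
      rw [rf_apply, yv_other t hli hlj]
      simp
    rw [this, map_one, mul_one]
    rfl
  · intro q _ hq
    have : (rfU hij t : Matrix (Fin n) (Fin n) ℂ) q l = 0 := by
      show rf i j t q l = 0
      rw [rf_apply, yv_other t hli hlj, if_neg hq]
      simp
    rw [this, map_zero, mul_zero, zero_smul]
  · simp

theorem sum_rf {i j : Fin n} (t : ℝ) (l p : Fin n) :
    (∑ k, (rf i j t k p) • L.a k l) = L.a p l - (((2 / (1 + t ^ 2) : ℝ) : ℂ) * yv i j t p) •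
      (L.a i l + (t : ℂ) • L.a j l) := by
  simp only [rf_apply, sub_smul, Finset.sum_sub_distrib, ite_smul, one_smul, zero_smul,
    Finset.sum_ite_eq', Finset.mem_univ, if_true]
  congr 1
  have h1 : ∀ k, (((2 / (1 + t ^ 2) : ℝ) : ℂ) * (yv i j t k * yv i j t p)) • L.a k l =
      (((2 / (1 + t ^ 2) : ℝ) : ℂ) * yv i j t p) • (yv i j t k • L.a k l) := by
    intro k
    rw [smul_smul]
    congr 1
    ring
  simp only [h1, ← Finset.smul_sum]
  congr 1
  simp only [yv, Pi.add_apply, add_smul, Finset.sum_add_distrib, Pi.single_apply, ite_smul,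
    one_smul, zero_smul, Finset.sum_ite_eq', Finset.mem_univ, if_true]

theorem conj_j {i j : Fin n} (hij : i ≠ j) (t : ℝ) {l : Fin n} (hli : l ≠ i) (hlj : l ≠ j) :
    L.U (rfU hij t) * L.a j l =
      L.comb i j l (-(2 * t / (1 + t ^ 2))) ((1 - t ^ 2) / (1 + t ^ 2)) * L.U (rfU hij t) := by
  rw [L.conj_rf hij t hli hlj, L.sum_rf]
  congr 1
  have h0 : (1 + t ^ 2 : ℝ) ≠ 0 := by positivity
  have h0' : (1 + (t : ℂ) ^ 2) ≠ 0 := by exact_mod_cast h0
  have hy : yv i j t j = t := by simp [yv, hij.symm]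
  rw [hy, comb]
  push_cast
  rw [smul_add, smul_smul]
  have e : L.a j l = (1 : ℂ) • L.a j l := (one_smul _ _).symm
  conv_lhs => rw [e]
  rw [smul_smul, mul_one]
  have h3 : ((1 - (t : ℂ) ^ 2) / (1 + (t : ℂ) ^ 2)) = 1 - 2 / (1 + (t : ℂ) ^ 2) * t * t := by
    field_simp
    ring
  have h4 : -(2 * (t : ℂ) / (1 + (t : ℂ) ^ 2)) = - (2 / (1 + (t : ℂ) ^ 2) * t) := by
    field_simp
  rw [h3, h4, sub_smul, neg_smul, one_smul]
  abel

theorem conj_i {i j : Fin n} (hij : i ≠ j) (t : ℝ) {l : Fin n} (hli : l ≠ i) (hlj : l ≠ j) :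
    ∃ T : H →L[ℂ] H, (∀ z, L.a i l z = 0 → L.a j l z = 0 → T z = 0) ∧
    L.U (rfU hij t) * L.a i l = T * L.U (rfU hij t) := by
  refine ⟨_, ?_, L.conj_rf hij t hli hlj i⟩
  intro z h1 h2
  rw [L.sum_rf]
  simp [h1, h2]

theorem rfU_sq {i j : Fin n} (hij : i ≠ j) (t : ℝ) :
    L.U (rfU hij t) * L.U (rfU hij t) = 1 := by
  rw [← L.U_mul, rfU_mul, L.U_one]

omit [CompleteSpace H] in
theorem rot_aux {U T B : H →L[ℂ] H} (hU : U * U = 1) (h : U * B = T * U) : B * U = U * T := by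
  calc B * U = (U * U) * B * U := by rw [hU, one_mul]
    _ = U * (U * B) * U := by simp only [mul_assoc]
    _ = U * T * (U * U) := by rw [h]; simp only [mul_assoc]
    _ = U * T := by rw [hU, mul_one]

theorem a_comm_star (i j k l : Fin n) : star (L.a i j) * L.a k l = L.a k l * star (L.a i j) := by
  rw [L.a_star, L.a_comm]

theorem a_comm_kerP (i j k l : Fin n) :
    L.a i j * kerP (L.a k l) = kerP (L.a k l) * L.a i j :=
  kerP_comm (L.a_comm _ _ _ _) (L.a_comm_star _ _ _ _)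

theorem kerP_comm_kerP (i j k l : Fin n) :
    kerP (L.a i j) * kerP (L.a k l) = kerP (L.a k l) * kerP (L.a i j) :=
  kerP_comm (L.a_comm_kerP k l i j).symm (by rw [kerP_star]; exact (L.a_comm_kerP k l i j).symm)

theorem comb_apply (i j l : Fin n) (s c : ℝ) (z : H) :
    L.comb i j l s c z = (s : ℂ) • L.a i l z + (c : ℂ) • L.a j l z := rfl

theorem comb_star (i j l : Fin n) (s c : ℝ) :
    star (L.comb i j l s c) = (s : ℂ) • L.a l i + (c : ℂ) • L.a l j := by
  rw [comb, star_add, star_smul, star_smul, L.a_star, L.a_star]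
  simp

theorem comb_comm (i j l : Fin n) (s c s' c' : ℝ) :
    L.comb i j l s c * L.comb i j l s' c' = L.comb i j l s' c' * L.comb i j l s c := by
  simp only [comb, add_mul, mul_add, smul_mul_smul_comm]
  rw [L.a_comm j l i l, mul_comm (s : ℂ) (s' : ℂ), mul_comm (c : ℂ) (c' : ℂ),
    mul_comm (s : ℂ) (c' : ℂ), mul_comm (c : ℂ) (s' : ℂ)]
  abel

theorem comb_comm_star (i j l : Fin n) (s c s' c' : ℝ) :
    star (L.comb i j l s c) * L.comb i j l s' c' =
      L.comb i j l s' c' * star (L.comb i j l s c) := by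
  rw [comb_star]
  simp only [comb, add_mul, mul_add, smul_mul_smul_comm]
  rw [L.a_comm l i i l, L.a_comm l i j l, L.a_comm l j i l, L.a_comm l j j l,
    mul_comm (s : ℂ) (s' : ℂ), mul_comm (c : ℂ) (c' : ℂ),
    mul_comm (s : ℂ) (c' : ℂ), mul_comm (c : ℂ) (s' : ℂ)]
  abel

theorem inner_kerP_left (T : H →L[ℂ] H) (x y : H) :
    (inner ℂ (kerP T x) y : ℂ) = inner ℂ x (kerP T y) :=
  Submodule.inner_starProjection_left_eq_right _ x y

/-- The rotation lemma. -/
theorem rot {i j : Fin n} (hij : i ≠ j) {l : Fin n} (hli : l ≠ i) (hlj : l ≠ j) (u : H)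
    (hu : ∀ t : ℝ, L.U (rfU hij t) u = u) :
    kerP (L.a i l) (kerP (L.a j l) u) = kerP (L.a j l) u := by
  set KA := kerP (L.a i l) with hKA
  set KB := kerP (L.a j l) with hKB
  have hAB : ∀ x, KA (KB x) = KB (KA x) := fun x => by
    rw [← mul_apply_eq_comp, ← mul_apply_eq_comp, L.kerP_comm_kerP]
  have hAA : ∀ x, KA (KA x) = KA x := fun x => by
    rw [← mul_apply_eq_comp, kerP_idem]
  have hBB : ∀ x, KB (KB x) = KB x := fun x => by
    rw [← mul_apply_eq_comp, kerP_idem]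
  set w : H := KB u - KA (KB u) with hw
  have c0 : KB w = w := by
    rw [hw, map_sub, hBB, ← hAB, hBB]
  have c1 : KA w = 0 := by
    rw [hw, map_sub, hAA, sub_self]
  have c2 : ∀ z, L.a i l z = 0 → L.a j l z = 0 → (inner ℂ z w : ℂ) = 0 := by
    intro z h1 h2
    have : KA z = z := kerP_apply_of_mem h1
    rw [← this, inner_kerP_left, ← hKA, c1, inner_zero_right]
  have c3 : ∀ (t : ℝ) (z : H), L.a i l z = 0 → L.a j l z = 0 →
      (inner ℂ z (L.U (rfU hij t) w) : ℂ) = 0 := by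
    intro t z h1 h2
    have e1 : (inner ℂ z (L.U (rfU hij t) w) : ℂ) = inner ℂ (L.U (rfU hij t) z) w := by
      rw [← L.U_inner (rfU hij t) (L.U (rfU hij t) z) w, ← mul_apply_eq_comp, L.rfU_sq,
        one_apply_eq_self]
    rw [e1]
    apply c2
    · obtain ⟨T, hT, hT2⟩ := L.conj_i hij t hli hlj
      have := rot_aux (L.rfU_sq hij t) hT2
      rw [← mul_apply_eq_comp, this, mul_apply_eq_comp, hT z h1 h2, map_zero]
    · have := rot_aux (L.rfU_sq hij t) (L.conj_j hij t hli hlj)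
      rw [← mul_apply_eq_comp, this, mul_apply_eq_comp, L.comb_apply, h1, h2]
      simp
  have c4 : ∀ t : ℝ, kerP (L.comb i j l (-(2 * t / (1 + t ^ 2))) ((1 - t ^ 2) / (1 + t ^ 2)))
      (L.U (rfU hij t) w) = L.U (rfU hij t) w := by
    intro t
    have := kerP_conj (L.star_U_mul (rfU hij t)) (L.U_mul_star (rfU hij t))
      (L.conj_j hij t hli hlj)
    rw [← mul_apply_eq_comp, ← this, mul_apply_eq_comp, ← hKB, c0]
  have c4' : ∀ t : ℝ, L.comb i j l (-(2 * t / (1 + t ^ 2))) ((1 - t ^ 2) / (1 + t ^ 2))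
      (L.U (rfU hij t) w) = 0 := by
    intro t
    rw [← c4 t]
    exact apply_kerP _ _
  have c5 : ∀ t t' : ℝ, 0 ≤ t → 0 ≤ t' → t ≠ t' →
      (inner ℂ (L.U (rfU hij t) w) (L.U (rfU hij t') w) : ℂ) = 0 := by
    intro t t' ht ht' hne
    rw [← c4 t, inner_kerP_left]
    set z := kerP (L.comb i j l (-(2 * t / (1 + t ^ 2))) ((1 - t ^ 2) / (1 + t ^ 2)))
      (L.U (rfU hij t') w) with hz
    have z1 : L.comb i j l (-(2 * t / (1 + t ^ 2))) ((1 - t ^ 2) / (1 + t ^ 2)) z = 0 :=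
      apply_kerP _ _
    have z2 : L.comb i j l (-(2 * t' / (1 + t' ^ 2))) ((1 - t' ^ 2) / (1 + t' ^ 2)) z = 0 := by
      have hc := kerP_comm (L.comb_comm i j l (-(2 * t' / (1 + t' ^ 2)))
        ((1 - t' ^ 2) / (1 + t' ^ 2)) (-(2 * t / (1 + t ^ 2))) ((1 - t ^ 2) / (1 + t ^ 2)))
        (L.comb_comm_star i j l (-(2 * t' / (1 + t' ^ 2)))
        ((1 - t' ^ 2) / (1 + t' ^ 2)) (-(2 * t / (1 + t ^ 2))) ((1 - t ^ 2) / (1 + t ^ 2)))
      rw [hz, ← mul_apply_eq_comp, hc, mul_apply_eq_comp, c4', map_zero]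
    have h0 : (1 + t ^ 2 : ℝ) ≠ 0 := by positivity
    have h0' : (1 + t' ^ 2 : ℝ) ≠ 0 := by positivity
    -- multiply out
    have z1' : (-(2 * t) : ℝ) • L.a i l z + ((1 - t ^ 2 : ℝ)) • L.a j l z = 0 := by
      have := congrArg (fun x => (1 + t ^ 2 : ℝ) • x) z1
      simp only [L.comb_apply, smul_zero, smul_add] at this
      rw [← this]
      congr 1
      · rw [← Complex.coe_smul, ← Complex.coe_smul, smul_smul]
        congr 1
        rw [← Complex.ofReal_mul]
        congr 1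
        field_simp
      · rw [← Complex.coe_smul, ← Complex.coe_smul, smul_smul]
        congr 1
        rw [← Complex.ofReal_mul]
        congr 1
        field_simp
    have z2' : (-(2 * t') : ℝ) • L.a i l z + ((1 - t' ^ 2 : ℝ)) • L.a j l z = 0 := by
      have := congrArg (fun x => (1 + t' ^ 2 : ℝ) • x) z2
      simp only [L.comb_apply, smul_zero, smul_add] at this
      rw [← this]
      congr 1
      · rw [← Complex.coe_smul, ← Complex.coe_smul, smul_smul]
        congr 1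
        rw [← Complex.ofReal_mul]
        congr 1
        field_simp
      · rw [← Complex.coe_smul, ← Complex.coe_smul, smul_smul]
        congr 1
        rw [← Complex.ofReal_mul]
        congr 1
        field_simp
    have hdet : 2 * (t' - t) * (1 + t * t') ≠ 0 := by
      have : t' - t ≠ 0 := sub_ne_zero.mpr hne.symm
      have h2 : (1 + t * t') ≠ 0 := by positivity
      positivity
    have za : L.a i l z = 0 := by
      have e1 : (2 * (t' - t) * (1 + t * t') : ℝ) • L.a i l z =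
          (1 - t' ^ 2 : ℝ) • ((-(2 * t) : ℝ) • L.a i l z + ((1 - t ^ 2 : ℝ)) • L.a j l z) -
          (1 - t ^ 2 : ℝ) • ((-(2 * t') : ℝ) • L.a i l z + ((1 - t' ^ 2 : ℝ)) • L.a j l z) := by
        module
      rw [z1', z2', smul_zero, smul_zero, sub_zero] at e1
      exact (smul_eq_zero.mp e1).resolve_left hdet
    have zb : L.a j l z = 0 := by
      have e1 : (2 * (t' - t) * (1 + t * t') : ℝ) • L.a j l z =
          (2 * t' : ℝ) • ((-(2 * t) : ℝ) • L.a i l z + ((1 - t ^ 2 : ℝ)) • L.a j l z) -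
          (2 * t : ℝ) • ((-(2 * t') : ℝ) • L.a i l z + ((1 - t' ^ 2 : ℝ)) • L.a j l z) := by
        module
      rw [z1', z2', smul_zero, smul_zero, sub_zero] at e1
      exact (smul_eq_zero.mp e1).resolve_left hdet
    rw [← inner_conj_symm, c3 t z za zb, map_zero]
  have c6 : (inner ℂ w u : ℂ) = (‖w‖ ^ 2 : ℝ) := by
    have e1 : (inner ℂ w w : ℂ) = inner ℂ w u := by
      conv_lhs => rw [show (inner ℂ w w : ℂ) = inner ℂ w (KB u - KA (KB u)) by rw [← hw]]
      rw [inner_sub_right, ← inner_kerP_left, ← inner_kerP_left, ← hKA, ← hKB, c1, c0,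
        inner_zero_left, sub_zero]
    rw [← e1, inner_self_eq_norm_sq_to_K]
    norm_cast
  have hw0 : w = 0 := by
    by_contra hne
    have hn : 0 < ‖w‖ := norm_pos_iff.mpr hne
    have horth : Orthonormal ℂ (fun k : ℕ => ((‖w‖⁻¹ : ℝ) : ℂ) • L.U (rfU hij (k : ℝ)) w) := by
      constructor
      · intro k
        have e1 : ‖L.U (rfU hij (k : ℝ)) w‖ = ‖w‖ := by
          have h := L.U_inner (rfU hij (k : ℝ)) w w
          rw [inner_self_eq_norm_sq_to_K, inner_self_eq_norm_sq_to_K] at h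
          have h2 : ‖L.U (rfU hij (k : ℝ)) w‖ ^ 2 = ‖w‖ ^ 2 := by exact_mod_cast h
          exact (sq_eq_sq₀ (norm_nonneg _) (norm_nonneg _)).mp h2
        rw [norm_smul, e1, Complex.norm_real, norm_inv, norm_norm, inv_mul_cancel₀ hn.ne']
      · intro k k' hkk
        show (inner ℂ (((‖w‖⁻¹ : ℝ) : ℂ) • L.U (rfU hij (k : ℝ)) w)
          (((‖w‖⁻¹ : ℝ) : ℂ) • L.U (rfU hij (k' : ℝ)) w) : ℂ) = 0
        rw [inner_smul_left, inner_smul_right, c5 _ _ (Nat.cast_nonneg k) (Nat.cast_nonneg k')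
          (by exact_mod_cast hkk), mul_zero, mul_zero]
    have hb : ∀ N : ℕ, (N : ℝ) * ‖w‖ ^ 2 ≤ ‖u‖ ^ 2 := by
      intro N
      have h1 := horth.sum_inner_products_le (x := u) (s := Finset.range N)
      have h2 : ∀ k ∈ Finset.range N, ‖(inner ℂ (((‖w‖⁻¹ : ℝ) : ℂ) •
          L.U (rfU hij (k : ℝ)) w) u : ℂ)‖ ^ 2 = ‖w‖ ^ 2 := by
        intro k _
        rw [inner_smul_left]
        have e1 : (inner ℂ (L.U (rfU hij (k : ℝ)) w) u : ℂ) = inner ℂ w u := by
          conv_lhs => rw [← hu (k : ℝ)]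
          rw [L.U_inner]
        rw [e1, c6, Complex.conj_ofReal, ← Complex.ofReal_mul, Complex.norm_real]
        congr 1
        rw [Real.norm_of_nonneg (by positivity)]
        field_simp
      rw [Finset.sum_congr rfl h2] at h1
      simpa using h1
    obtain ⟨N, hN⟩ := exists_nat_gt (‖u‖ ^ 2 / ‖w‖ ^ 2)
    have h3 : ‖u‖ ^ 2 < N * ‖w‖ ^ 2 := by
      rwa [div_lt_iff₀ (by positivity)] at hN
    exact absurd (hb N) (not_le.mpr h3)
  rw [hw, sub_eq_zero] at hw0
  exact hw0.symm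

end LimData

end rot

end Pool.Agent.Helper64_FR
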