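import Pool.Agent.Helper64_FR.FIX

/-!
# Schur orthogonality for non-isomorphic irreducible representations
-/

open MeasureTheory Matrix Filter Topology

namespace Pool.Agent.Helper64_FR

namespace ORT

open FIX

variable {n : ℕ}

theorem continuous_op (ρ : URep n) : Continuous fun g : UU n => ρ.op g := by
  have h1 : Continuous (Matrix.toEuclideanCLM (n := Fin ρ.dim) (𝕜 := ℂ)) :=
    LinearMap.continuous_of_finiteDimensional
      ((Matrix.toEuclideanCLM (n := Fin ρ.dim) (𝕜 := ℂ)).toAlgEquiv.toLinearMap)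
  exact h1.comp (continuous_subtype_val.comp ρ.cont)

instance instProbHaarU : IsProbabilityMeasure (haarU n) := by
  constructor
  have := @Measure.haarMeasure_self (UU n) _ _ _ _ _ ⊤
  unfold haarU
  simpa using this

instance instInvHaarU : (haarU n).IsMulLeftInvariant := by
  unfold haarU
  infer_instance

/-- the averaged operator -/
noncomputable def kern (ρ σ : URep n) (A : σ.Sp →L[ℂ] ρ.Sp) (g : UU n) : σ.Sp →L[ℂ] ρ.Sp :=
  ρ.op g ∘L A ∘L σ.op g⁻¹

theorem continuous_kern (ρ σ : URep n) (A : σ.Sp →L[ℂ] ρ.Sp) : Continuous (kern ρ σ A) := by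
  unfold kern
  have h1 := continuous_op ρ
  have h2 : Continuous fun g : UU n => σ.op g⁻¹ := (continuous_op σ).comp continuous_inv
  exact h1.clm_comp (continuous_const.clm_comp h2)

theorem integrable_kern (ρ σ : URep n) (A : σ.Sp →L[ℂ] ρ.Sp) :
    Integrable (kern ρ σ A) (haarU n) :=
  (continuous_kern ρ σ A).integrable_of_hasCompactSupport (HasCompactSupport.of_compactSpace _)

/-- the intertwining operator -/
noncomputable def T (ρ σ : URep n) (A : σ.Sp →L[ℂ] ρ.Sp) : σ.Sp →L[ℂ] ρ.Sp :=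
  ∫ g : UU n, kern ρ σ A g ∂(haarU n)

theorem T_inter (ρ σ : URep n) (A : σ.Sp →L[ℂ] ρ.Sp) (h : UU n) (z : σ.Sp) :
    T ρ σ A (σ.op h z) = ρ.op h (T ρ σ A z) := by
  have h1 : T ρ σ A (σ.op h z) = ∫ g : UU n, kern ρ σ A g (σ.op h z) ∂(haarU n) := by
    unfold T
    rw [ContinuousLinearMap.integral_apply (integrable_kern ρ σ A)]
  have h2 : ρ.op h (T ρ σ A z) = ∫ g : UU n, ρ.op h (kern ρ σ A g z) ∂(haarU n) := by
    unfold T
    rw [ContinuousLinearMap.integral_apply (integrable_kern ρ σ A)]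
    exact ((ρ.op h).integral_comp_comm ((integrable_kern ρ σ A).apply_continuousLinearMap z)).symm
  rw [h1, h2, ← integral_mul_left_eq_self (μ := haarU n)
    (fun g : UU n => kern ρ σ A g (σ.op h z)) h]
  congr 1
  ext1 g
  show ρ.op (h * g) (A (σ.op (h * g)⁻¹ (σ.op h z))) = ρ.op h (ρ.op g (A (σ.op g⁻¹ z)))
  have e1 : σ.op (h * g)⁻¹ (σ.op h z) = σ.op g⁻¹ z := by
    have : σ.op (h * g)⁻¹ * σ.op h = σ.op g⁻¹ := by
      rw [← op_mul]
      congr 1
      group
    exact congrArg (fun S : σ.Sp →L[ℂ] σ.Sp => S z) this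
  rw [e1, op_mul]
  rfl

theorem T_eq_zero (ρ σ : URep n) (hρ : ρ.Irred) (hσ : σ.Irred) (hn : ¬ ρ.Iso σ)
    (A : σ.Sp →L[ℂ] ρ.Sp) : T ρ σ A = 0 := by
  classical
  by_contra hT
  -- the linear map on functions
  let L : (Fin σ.dim → ℂ) →ₗ[ℂ] (Fin ρ.dim → ℂ) :=
    (WithLp.linearEquiv 2 ℂ (Fin ρ.dim → ℂ)).toLinearMap ∘ₗ (T ρ σ A).toLinearMap ∘ₗ
      (WithLp.linearEquiv 2 ℂ (Fin σ.dim → ℂ)).symm.toLinearMap
  have hL : ∀ (g : UU n) (x : Fin σ.dim → ℂ), L (σ.mat g *ᵥ x) = ρ.mat g *ᵥ (L x) := by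
    intro g x
    have := T_inter ρ σ A g (WithLp.toLp 2 x)
    exact congrArg (fun z : ρ.Sp => WithLp.ofLp z) this
  have hL0 : L ≠ 0 := by
    intro h0
    apply hT
    ext1 z
    have := congrArg (fun S : (Fin σ.dim → ℂ) →ₗ[ℂ] (Fin ρ.dim → ℂ) => S (WithLp.ofLp z)) h0
    have h2 : WithLp.ofLp (T ρ σ A z) = 0 := this
    have h3 : T ρ σ A z = WithLp.toLp 2 (WithLp.ofLp (T ρ σ A z)) := rfl
    rw [h3, h2]
    rfl
  have hk : LinearMap.ker L = ⊥ := by
    rcases hσ.2 (LinearMap.ker L) (by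
      intro g x hx
      rw [LinearMap.mem_ker] at hx ⊢
      rw [hL, hx, Matrix.mulVec_zero]) with h | h
    · exact h
    · exact absurd (LinearMap.ker_eq_top.mp h) hL0
  have hr : LinearMap.range L = ⊤ := by
    rcases hρ.2 (LinearMap.range L) (by
      rintro g _ ⟨x, rfl⟩
      exact ⟨σ.mat g *ᵥ x, hL g x⟩) with h | h
    · exact absurd (LinearMap.range_eq_bot.mp h) hL0
    · exact h
  let e := LinearEquiv.ofBijective L ⟨LinearMap.ker_eq_bot.mp hk, LinearMap.range_eq_top.mp hr⟩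
  apply hn
  refine ⟨e.symm, fun g x => ?_⟩
  rw [LinearEquiv.symm_apply_eq]
  have : e (σ.mat g *ᵥ (e.symm x)) = ρ.mat g *ᵥ (e (e.symm x)) := hL g _
  rw [this, LinearEquiv.apply_symm_apply]

end ORT

open FIX ORT in
theorem ORT_proof : Stmt_ORT := by
  intro n ρ σ hρ hσ hn x y x' y'
  let A : σ.Sp →L[ℂ] ρ.Sp := (innerSL ℂ y').smulRight y
  have h0 := T_eq_zero ρ σ hρ hσ hn A
  have h1 : inner ℂ x (T ρ σ A x') = 0 := by rw [h0]; simp
  have h2 : inner ℂ x (T ρ σ A x') =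
      ∫ g : UU n, inner ℂ x (kern ρ σ A g x') ∂(haarU n) := by
    unfold T
    rw [ContinuousLinearMap.integral_apply (integrable_kern ρ σ A)]
    exact ((innerSL ℂ x).integral_comp_comm
      ((integrable_kern ρ σ A).apply_continuousLinearMap x')).symm
  rw [h2] at h1
  rw [← h1]
  congr 1
  ext1 g
  have h3 : kern ρ σ A g x' = (inner ℂ y' (σ.op g⁻¹ x')) • ρ.op g y := by
    show ρ.op g (A (σ.op g⁻¹ x')) = _
    have : A (σ.op g⁻¹ x') = (inner ℂ y' (σ.op g⁻¹ x')) • y := rfl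
    rw [this, map_smul]
  rw [h3, inner_smul_right, ← inner_op_left, mul_comm]
  rw [inner_conj_symm]

end Pool.Agent.Helper64_FR
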