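import Pool.Agent.Helper64_FR.FIX

/-!
# The lower bound for the smallest eigenvalue, from the certificate
-/

open MeasureTheory Matrix Filter Topology

namespace Pool.Agent.Helper64_FR

namespace LOW

open FIX

variable {n : ℕ}

theorem star_sum' {H : Type} [NormedAddCommGroup H] [InnerProductSpace ℂ H]
    [CompleteSpace H] {ι : Type} (s : Finset ι) (f : ι → (H →L[ℂ] H)) :
    star (∑ i ∈ s, f i) = ∑ i ∈ s, star (f i) := star_sum s f

theorem star_sub' {H : Type} [NormedAddCommGroup H] [InnerProductSpace ℂ H]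
    [CompleteSpace H] (A B : H →L[ℂ] H) : star (A - B) = star A - star B := star_sub A B

/-- the Laplacian as an operator -/
noncomputable def lapOp (ρ : URep n) (w : Finset (Fin n) → ℝ) : ρ.Sp →L[ℂ] ρ.Sp :=
  Matrix.toEuclideanCLM (n := Fin ρ.dim) (𝕜 := ℂ) (ρ.lap w)

theorem lapOp_eq (ρ : URep n) (w : Finset (Fin n) → ℝ) :
    lapOp ρ w = ∑ B : Finset (Fin n), (w B : ℂ) • (1 - ρ.P B) := by
  unfold lapOp URep.lap
  rw [map_sum]
  refine Finset.sum_congr rfl fun B _ => ?_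
  rw [map_smul, map_sub, map_one]
  rfl

theorem star_lapOp (ρ : URep n) (w : Finset (Fin n) → ℝ) : star (lapOp ρ w) = lapOp ρ w := by
  rw [lapOp_eq, star_sum']
  refine Finset.sum_congr rfl fun B _ => ?_
  rw [star_smul, star_sub', star_one, P_star]
  congr 1
  simp

theorem lap_herm (ρ : URep n) (w : Finset (Fin n) → ℝ) : (ρ.lap w).IsHermitian := by
  have h := star_lapOp ρ w
  unfold lapOp at h
  rw [← map_star] at h
  exact (Matrix.toEuclideanCLM (n := Fin ρ.dim) (𝕜 := ℂ)).injective h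

theorem eig_nonempty (ρ : URep n) (hd : 0 < ρ.dim) (w : Finset (Fin n) → ℝ) :
    {x : ℝ | ∃ v : Fin ρ.dim → ℂ, v ≠ 0 ∧ ρ.lap w *ᵥ v = (x : ℂ) • v}.Nonempty := by
  have h := lap_herm ρ w
  refine ⟨h.eigenvalues ⟨0, hd⟩, WithLp.ofLp (h.eigenvectorBasis ⟨0, hd⟩), ?_, ?_⟩
  · intro h0
    have h1 : h.eigenvectorBasis ⟨0, hd⟩ = 0 := by
      have : h.eigenvectorBasis ⟨0, hd⟩ = WithLp.toLp 2 (WithLp.ofLp (h.eigenvectorBasis ⟨0, hd⟩)) :=
        rfl
      rw [this, h0]
      rfl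
    have h2 := h.eigenvectorBasis.orthonormal.1 ⟨0, hd⟩
    rw [h1] at h2
    simp at h2
  · exact h.mulVec_eigenvectorBasis ⟨0, hd⟩

theorem inner_one_sub_P (ρ : URep n) (B : Finset (Fin n)) (v : ρ.Sp) :
    inner ℂ v ((1 - ρ.P B) v) = ((‖v - ρ.P B v‖ ^ 2 : ℝ) : ℂ) := by
  have h1 : star (1 - ρ.P B) * (1 - ρ.P B) = 1 - ρ.P B := by
    rw [star_sub', star_one, P_star, sub_mul, mul_sub, mul_sub, P_idem, one_mul, one_mul, mul_one]
    simp
  have h2 : inner ℂ v ((1 - ρ.P B) v) = inner ℂ ((1 - ρ.P B) v) ((1 - ρ.P B) v) := by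
    conv_lhs => rw [← h1]
    show inner ℂ v (star (1 - ρ.P B) ((1 - ρ.P B) v)) = _
    rw [ContinuousLinearMap.star_eq_adjoint, ContinuousLinearMap.adjoint_inner_right]
  rw [h2, inner_self_eq_norm_sq_to_K]
  push_cast
  rfl

theorem eig_eq (ρ : URep n) (w : Finset (Fin n) → ℝ) (v : ρ.Sp) (hv : ‖v‖ = 1) (x : ℝ)
    (hx : lapOp ρ w v = (x : ℂ) • v) :
    x = ∑ B : Finset (Fin n), w B * ‖v - ρ.P B v‖ ^ 2 := by
  have h1 : inner ℂ v (lapOp ρ w v) = (x : ℂ) := by
    rw [hx, inner_smul_right, inner_self_eq_norm_sq_to_K, hv]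
    simp
  have h2 : inner ℂ v (lapOp ρ w v) =
      ((∑ B : Finset (Fin n), w B * ‖v - ρ.P B v‖ ^ 2 : ℝ) : ℂ) := by
    rw [lapOp_eq, _root_.sum_apply, inner_sum, Complex.ofReal_sum]
    refine Finset.sum_congr rfl fun B _ => ?_
    have h3 : ((w B : ℂ) • (1 - ρ.P B)) v = (w B : ℂ) • ((1 - ρ.P B) v) := rfl
    rw [h3, inner_smul_right, inner_one_sub_P]
    push_cast
    rfl
  rw [h1] at h2
  exact_mod_cast h2

theorem mem_UB_univ (g : UU n) : g ∈ UB (Finset.univ : Finset (Fin n)) := by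
  intro i j h
  rcases h with h | h <;> exact absurd (Finset.mem_univ _) h

theorem crosses_univ {S : Finset (Fin n)} (h1 : S.Nonempty) (h2 : S ≠ Finset.univ) :
    Crosses (Finset.univ : Finset (Fin n)) S := by
  obtain ⟨i, hi⟩ := h1
  refine ⟨⟨i, Finset.mem_univ _, hi⟩, ?_⟩
  by_contra hcon
  push Not at hcon
  exact h2 (Finset.eq_univ_iff_forall.mpr fun j => hcon j (Finset.mem_univ _))

theorem sum_univ_eq {p : Finset (Fin n) → ℝ}
    (hp : ∀ S, p S ≠ 0 → S.Nonempty ∧ S ≠ Finset.univ) (hs : ∑ S, p S = 1) :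
    open scoped Classical in
    ∑ S, (if Crosses (Finset.univ : Finset (Fin n)) S then p S else 0) = 1 := by
  classical
  rw [← hs]
  refine Finset.sum_congr rfl fun S _ => ?_
  by_cases h : p S = 0
  · simp [h]
  · rw [if_pos (crosses_univ (hp S h).1 (hp S h).2)]

theorem P_univ_zero (ρ : URep n) (hρ : ρ.Irred) (δ : ℝ) (hδ : δ < 1)
    (hc : ∀ v : ρ.Sp, ‖v‖ = 1 → CutCert n δ (fun B => ‖v - ρ.P B v‖ ^ 2)) (v : ρ.Sp) :
    ρ.P Finset.univ v = 0 := by
  classical
  let W : Submodule ℂ (Fin ρ.dim → ℂ) :=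
    { carrier := {x | ρ.P Finset.univ (WithLp.toLp 2 x) = WithLp.toLp 2 x}
      add_mem' := by
        intro x y hx hy
        show ρ.P Finset.univ (WithLp.toLp 2 (x + y)) = _
        rw [WithLp.toLp_add, map_add]
        exact congrArg₂ (· + ·) hx hy
      zero_mem' := by
        show ρ.P Finset.univ (WithLp.toLp 2 0) = _
        rw [WithLp.toLp_zero, map_zero]
      smul_mem' := by
        intro c x hx
        show ρ.P Finset.univ (WithLp.toLp 2 (c • x)) = _
        rw [WithLp.toLp_smul, map_smul]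
        exact congrArg (c • ·) hx }
  have hW : W = ⊥ ∨ W = ⊤ := by
    apply hρ.2
    intro g x hx
    show ρ.P Finset.univ (WithLp.toLp 2 (ρ.mat g *ᵥ x)) = WithLp.toLp 2 (ρ.mat g *ᵥ x)
    have hx' : ρ.P Finset.univ (WithLp.toLp 2 x) = WithLp.toLp 2 x := hx
    have h1 : (WithLp.toLp 2 (ρ.mat g *ᵥ x) : ρ.Sp) = ρ.op g (WithLp.toLp 2 x) := rfl
    have h2 : ρ.op g (WithLp.toLp 2 x) = WithLp.toLp 2 x := by
      rw [← hx']
      exact P_apply_inv ρ Finset.univ _ g (mem_UB_univ g)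
    rw [h1, h2, hx']
  rcases hW with h | h
  · have h1 : WithLp.ofLp (ρ.P Finset.univ v) ∈ W := by
      show ρ.P Finset.univ (ρ.P Finset.univ v) = ρ.P Finset.univ v
      exact P_inv ρ _ _ (P_apply_inv ρ _ v)
    rw [h, Submodule.mem_bot] at h1
    have : ρ.P Finset.univ v = WithLp.toLp 2 (WithLp.ofLp (ρ.P Finset.univ v)) := rfl
    rw [this, h1]
    rfl
  · exfalso
    let e : ρ.Sp := EuclideanSpace.single (⟨0, hρ.1⟩ : Fin ρ.dim) 1
    have he : ‖e‖ = 1 := by simp [e]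
    obtain ⟨p, hp0, hp1, hp2, hp3⟩ := hc e he
    have h1 : (1 - δ) * ∑ S, (if Crosses (Finset.univ : Finset (Fin n)) S then p S else 0) ≤
      ‖e - ρ.P Finset.univ e‖ ^ 2 := hp3 Finset.univ
    have h2 : ρ.P Finset.univ e = e := by
      have : WithLp.ofLp e ∈ W := by rw [h]; trivial
      exact this
    rw [h2] at h1
    have h3 := sum_univ_eq hp1 hp2
    rw [h3] at h1
    simp at h1
    linarith

end LOW

open FIX LOW in
theorem LOW_proof : Stmt_LOW := by
  classical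
  intro n hn δ hδ0 hδ1 ρ hρ hc w hw
  -- the minimal cut
  let C : Finset (Finset (Fin n)) := Finset.univ.filter fun S => S.Nonempty ∧ S ≠ Finset.univ
  have hC : C.Nonempty := by
    refine ⟨{⟨0, by omega⟩}, ?_⟩
    simp only [C, Finset.mem_filter, Finset.mem_univ, true_and, Finset.singleton_nonempty]
    intro h
    have : (⟨1, by omega⟩ : Fin n) ∈ ({⟨0, by omega⟩} : Finset (Fin n)) := by
      rw [h]; exact Finset.mem_univ _
    simp at this
  obtain ⟨S₀, hS₀, hmin⟩ := Finset.exists_min_image C (fun S => cutW w S) hC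
  have hS₀' : S₀.Nonempty ∧ S₀ ≠ Finset.univ := by simpa [C] using hS₀
  refine ⟨S₀, hS₀'.1, hS₀'.2, ?_⟩
  refine le_csInf (eig_nonempty ρ hρ.1 w) ?_
  rintro x ⟨v, hv0, hv⟩
  -- normalize
  let v1 : ρ.Sp := WithLp.toLp 2 v
  have hv1 : v1 ≠ 0 := by
    intro h
    apply hv0
    have : v = WithLp.ofLp v1 := rfl
    rw [this, h]
    rfl
  let u : ρ.Sp := ((‖v1‖⁻¹ : ℝ) : ℂ) • v1
  have hu : ‖u‖ = 1 := by
    have h0 : ‖v1‖ ≠ 0 := norm_ne_zero_iff.mpr hv1
    simp only [u, norm_smul, Complex.norm_real, norm_inv, norm_norm]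
    exact inv_mul_cancel₀ h0
  have hlap1 : lapOp ρ w v1 = (x : ℂ) • v1 := by
    have : lapOp ρ w v1 = WithLp.toLp 2 (ρ.lap w *ᵥ v) := rfl
    rw [this, hv]
    rfl
  have hlap : lapOp ρ w u = (x : ℂ) • u := by
    simp only [u, map_smul, hlap1]
    rw [smul_comm]
  have hx := eig_eq ρ w u hu x hlap
  obtain ⟨p, hp0, hp1, hp2, hp3⟩ := hc u hu
  -- the term of the full set
  have hfull : ‖u - ρ.P Finset.univ u‖ ^ 2 = 1 := by
    rw [P_univ_zero ρ hρ δ hδ1 hc u, sub_zero, hu, one_pow]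
  have h1 : ∑ S, p S * cutW w S = ∑ B ∈ Finset.univ.erase (Finset.univ : Finset (Fin n)),
      w B * ∑ S, (if Crosses B S then p S else 0) := by
    unfold cutW
    simp_rw [Finset.mul_sum]
    rw [Finset.sum_comm]
    rw [← Finset.add_sum_erase Finset.univ _ (Finset.mem_univ (Finset.univ : Finset (Fin n)))]
    have hz : ∑ S : Finset (Fin n), p S * (if (Finset.univ : Finset (Fin n)) ≠ Finset.univ ∧
        Crosses (Finset.univ : Finset (Fin n)) S then w Finset.univ else 0) = 0 := by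
      apply Finset.sum_eq_zero
      intro S _
      simp
    rw [hz, zero_add]
    refine Finset.sum_congr rfl fun B hB => Finset.sum_congr rfl fun S _ => ?_
    have hB' : B ≠ Finset.univ := Finset.ne_of_mem_erase hB
    by_cases hcr : Crosses B S
    · simp [hB', hcr, mul_comm]
    · simp [hcr]
  have h2 : cutW w S₀ ≤ ∑ S, p S * cutW w S := by
    calc cutW w S₀ = ∑ S, p S * cutW w S₀ := by rw [← Finset.sum_mul, hp2, one_mul]
      _ ≤ ∑ S, p S * cutW w S := by
          refine Finset.sum_le_sum fun S _ => ?_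
          by_cases h : p S = 0
          · simp [h]
          · refine mul_le_mul_of_nonneg_left ?_ (hp0 S)
            exact hmin S (by simpa [C] using hp1 S h)
  rw [hx, ← Finset.add_sum_erase Finset.univ _ (Finset.mem_univ (Finset.univ : Finset (Fin n))),
    hfull, mul_one]
  refine add_le_add le_rfl ?_
  calc (1 - δ) * cutW w S₀ ≤ (1 - δ) * ∑ S, p S * cutW w S :=
        mul_le_mul_of_nonneg_left h2 (by linarith)
    _ = ∑ B ∈ Finset.univ.erase (Finset.univ : Finset (Fin n)),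
          w B * ((1 - δ) * ∑ S, (if Crosses B S then p S else 0)) := by
        rw [h1, Finset.mul_sum]
        refine Finset.sum_congr rfl fun B _ => ?_
        ring
    _ ≤ _ := by
        refine Finset.sum_le_sum fun B _ => ?_
        exact mul_le_mul_of_nonneg_left (hp3 B) (hw B)

end Pool.Agent.Helper64_FR
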