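import Pool.Agent.Helper64_FR.ORT

/-!
# The Casimir tends to infinity along pairwise non-isomorphic irreducible representations
-/

open MeasureTheory Matrix Filter Topology

namespace Pool.Agent.Helper64_FR

namespace FIN

open FIX ORT

variable {n : ℕ}

/-- A diagonal matrix coefficient. -/
noncomputable def phi (ρ : URep n) (v : ρ.Sp) (g : UU n) : ℂ := inner ℂ v (ρ.op g v)

theorem continuous_phi (ρ : URep n) (v : ρ.Sp) : Continuous (phi ρ v) := by
  unfold phi
  exact continuous_const.inner ((continuous_op ρ).clm_apply continuous_const)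

theorem norm_op_apply (ρ : URep n) (g : UU n) (v : ρ.Sp) : ‖ρ.op g v‖ = ‖v‖ := by
  have h : ‖ρ.op g v‖ ^ 2 = ‖v‖ ^ 2 := by
    have h1 : inner ℂ (ρ.op g v) (ρ.op g v) = inner ℂ v v := by
      rw [inner_op_left]
      have : ρ.op g⁻¹ * ρ.op g = 1 := by rw [← op_mul, inv_mul_cancel, op_one]
      have h2 : ρ.op g⁻¹ (ρ.op g v) = v := congrArg (fun S : ρ.Sp →L[ℂ] ρ.Sp => S v) this
      rw [h2]
    rw [inner_self_eq_norm_sq_to_K, inner_self_eq_norm_sq_to_K] at h1
    exact_mod_cast h1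
  have := (sq_eq_sq₀ (norm_nonneg _) (norm_nonneg _)).mp h
  exact this

theorem norm_phi_le (ρ : URep n) (v : ρ.Sp) (hv : ‖v‖ = 1) (g : UU n) : ‖phi ρ v g‖ ≤ 1 := by
  unfold phi
  calc ‖inner ℂ v (ρ.op g v)‖ ≤ ‖v‖ * ‖ρ.op g v‖ := norm_inner_le_norm _ _
    _ = 1 := by rw [norm_op_apply, hv, one_mul]

theorem re_phi_ge (ρ : URep n) (v : ρ.Sp) (hv : ‖v‖ = 1) (g : UU n) (hg : ‖ρ.op g - 1‖ ≤ 1 / 2) :
    1 / 2 ≤ (phi ρ v g).re := by
  have h1 : ‖phi ρ v g - 1‖ ≤ 1 / 2 := by
    have h2 : phi ρ v g - 1 = inner ℂ v ((ρ.op g - 1) v) := by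
      have : (ρ.op g - 1) v = ρ.op g v - v := rfl
      rw [this, inner_sub_right, inner_self_eq_norm_sq_to_K, hv]
      simp [phi]
    rw [h2]
    calc ‖inner ℂ v ((ρ.op g - 1) v)‖ ≤ ‖v‖ * ‖(ρ.op g - 1) v‖ := norm_inner_le_norm _ _
      _ ≤ ‖v‖ * (‖ρ.op g - 1‖ * ‖v‖) := by
          gcongr
          exact (ρ.op g - 1).le_opNorm v
      _ = ‖ρ.op g - 1‖ := by rw [hv]; ring
      _ ≤ 1 / 2 := hg
  have h3 : |(phi ρ v g - 1).re| ≤ ‖phi ρ v g - 1‖ := Complex.abs_re_le_norm _
  have h4 : (phi ρ v g - 1).re = (phi ρ v g).re - 1 := by simp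
  rw [h4] at h3
  have := (abs_le.mp (h3.trans h1)).1
  linarith

theorem int_cont {f : UU n → ℝ} (hf : Continuous f) : Integrable f (haarU n) :=
  hf.integrable_of_hasCompactSupport (HasCompactSupport.of_compactSpace _)

theorem int_contC {f : UU n → ℂ} (hf : Continuous f) : Integrable f (haarU n) :=
  hf.integrable_of_hasCompactSupport (HasCompactSupport.of_compactSpace _)

theorem normsq_sum {ι : Type} (F : Finset ι) (z : ι → ℂ) :
    ((‖∑ m ∈ F, z m‖ ^ 2 : ℝ) : ℂ) = ∑ m ∈ F, ∑ k ∈ F, z m * starRingEnd ℂ (z k) := by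
  rw [Complex.ofReal_pow, ← Complex.mul_conj', map_sum, Finset.sum_mul_sum]

/-- the counting bound -/
theorem card_bound (ρ : ℕ → URep n) (v : ∀ m, (ρ m).Sp) (hv : ∀ m, ‖v m‖ = 1)
    (hirr : ∀ m, (ρ m).Irred) (hni : ∀ m k, m < k → ¬ (ρ k).Iso (ρ m)) (hORT : Stmt_ORT)
    (F : Finset ℕ) (N : Set (UU n)) (hN : IsOpen N) (h1 : (1 : UU n) ∈ N)
    (hF : ∀ m ∈ F, ∀ g ∈ N, ‖(ρ m).op g - 1‖ ≤ 1 / 2) :
    (F.card : ℝ) ≤ 4 / (haarU n).real N := by
  have hβ0 : 0 < (haarU n).real N := by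
    have : (haarU n).IsHaarMeasure := by unfold haarU; infer_instance
    have h0 : 0 < haarU n N := hN.measure_pos _ ⟨1, h1⟩
    exact ENNReal.toReal_pos h0.ne' (measure_ne_top _ _)
  have horth : ∀ m k, m ≠ k →
      ∫ g, phi (ρ m) (v m) g * starRingEnd ℂ (phi (ρ k) (v k) g) ∂(haarU n) = 0 := by
    intro m k hmk
    rcases lt_or_gt_of_ne hmk with h | h
    · have h2 : ∫ g, phi (ρ k) (v k) g * starRingEnd ℂ (phi (ρ m) (v m) g) ∂(haarU n) = 0 :=
        hORT n (ρ k) (ρ m) (hirr k) (hirr m) (hni m k h) (v k) (v k) (v m) (v m)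
      have h3 : ∀ g, phi (ρ m) (v m) g * starRingEnd ℂ (phi (ρ k) (v k) g) =
          starRingEnd ℂ (phi (ρ k) (v k) g * starRingEnd ℂ (phi (ρ m) (v m) g)) := by
        intro g
        rw [map_mul, Complex.conj_conj, mul_comm]
      simp_rw [h3]
      rw [integral_conj, h2, map_zero]
    · exact hORT n (ρ m) (ρ k) (hirr m) (hirr k) (hni k m h) (v m) (v m) (v k) (v k)
  have hfc : Continuous fun g => ∑ m ∈ F, phi (ρ m) (v m) g :=
    continuous_finsetSum _ fun m _ => continuous_phi (ρ m) (v m)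
  -- the L2 norm
  have hL2 : ∫ g, ‖∑ m ∈ F, phi (ρ m) (v m) g‖ ^ 2 ∂(haarU n) ≤ F.card := by
    have e1 : ((∫ g, ‖∑ m ∈ F, phi (ρ m) (v m) g‖ ^ 2 ∂(haarU n) : ℝ) : ℂ) =
        ∑ m ∈ F, ((∫ g, ‖phi (ρ m) (v m) g‖ ^ 2 ∂(haarU n) : ℝ) : ℂ) := by
      rw [← integral_complex_ofReal]
      simp_rw [normsq_sum]
      rw [integral_finsetSum]
      · refine Finset.sum_congr rfl fun m hm => ?_
        rw [integral_finsetSum]
        · rw [Finset.sum_eq_single m]
          · rw [← integral_complex_ofReal]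
            congr 1
            ext1 g
            rw [Complex.mul_conj']
            push_cast
            rfl
          · intro k _ hk
            exact horth m k hk.symm
          · intro h; exact absurd hm h
        · intro k _
          exact int_contC ((continuous_phi _ _).mul
            (Complex.continuous_conj.comp (continuous_phi _ _)))
      · intro m _
        refine integrable_finsetSum _ fun k _ => ?_
        exact int_contC ((continuous_phi _ _).mul
            (Complex.continuous_conj.comp (continuous_phi _ _)))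
    have e2 : ∫ g, ‖∑ m ∈ F, phi (ρ m) (v m) g‖ ^ 2 ∂(haarU n) =
        ∑ m ∈ F, ∫ g, ‖phi (ρ m) (v m) g‖ ^ 2 ∂(haarU n) := by
      exact_mod_cast e1
    rw [e2]
    calc ∑ m ∈ F, ∫ g, ‖phi (ρ m) (v m) g‖ ^ 2 ∂(haarU n) ≤ ∑ m ∈ F, (1 : ℝ) := by
          refine Finset.sum_le_sum fun m _ => ?_
          calc ∫ g, ‖phi (ρ m) (v m) g‖ ^ 2 ∂(haarU n) ≤ ∫ g, (1 : ℝ) ∂(haarU n) := by
                refine integral_mono (int_cont ((continuous_phi _ _).norm.pow 2))
                  (integrable_const _) fun g => ?_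
                have := norm_phi_le (ρ m) (v m) (hv m) g
                exact pow_le_one₀ (norm_nonneg _) this
            _ = 1 := by simp
      _ = F.card := by simp
  set β := (haarU n).real N with hβ
  -- lower bound on N
  have hlow : (F.card : ℝ) / 2 * β ≤ ∫ g in N, ‖∑ m ∈ F, phi (ρ m) (v m) g‖ ∂(haarU n) := by
    have e3 : ∫ g in N, ((F.card : ℝ) / 2) ∂(haarU n) = (F.card : ℝ) / 2 * β := by
      rw [setIntegral_const, smul_eq_mul, mul_comm]
    rw [← e3]
    refine setIntegral_mono_on (integrable_const _).integrableOn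
      (int_cont hfc.norm).integrableOn hN.measurableSet fun g hg => ?_
    have e4 : (F.card : ℝ) / 2 ≤ (∑ m ∈ F, phi (ρ m) (v m) g).re := by
      rw [Complex.re_sum]
      calc (F.card : ℝ) / 2 = ∑ m ∈ F, (1 / 2 : ℝ) := by simp; ring
        _ ≤ _ := Finset.sum_le_sum fun m hm => re_phi_ge (ρ m) (v m) (hv m) g (hF m hm g hg)
    exact e4.trans ((le_abs_self _).trans (Complex.abs_re_le_norm _))
  -- upper bound on N
  have hup : ∫ g in N, ‖∑ m ∈ F, phi (ρ m) (v m) g‖ ∂(haarU n) ≤ (F.card : ℝ) * β / 4 + 1 := by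
    have e5 : ∀ g, ‖∑ m ∈ F, phi (ρ m) (v m) g‖ ≤
        β / 4 * ‖∑ m ∈ F, phi (ρ m) (v m) g‖ ^ 2 + 1 / β := by
      intro g
      set y := ‖∑ m ∈ F, phi (ρ m) (v m) g‖
      have : β / 4 * y ^ 2 + 1 / β - y = (β * y / 2 - 1) ^ 2 / β := by
        field_simp
        ring
      have h6 : 0 ≤ (β * y / 2 - 1) ^ 2 / β := by positivity
      linarith
    calc ∫ g in N, ‖∑ m ∈ F, phi (ρ m) (v m) g‖ ∂(haarU n)
        ≤ ∫ g in N, (β / 4 * ‖∑ m ∈ F, phi (ρ m) (v m) g‖ ^ 2 + 1 / β) ∂(haarU n) := by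
          refine setIntegral_mono (int_cont hfc.norm).integrableOn ?_ e5
          exact (int_cont ((continuous_const.mul (hfc.norm.pow 2)).add
            continuous_const)).integrableOn
      _ = β / 4 * ∫ g in N, ‖∑ m ∈ F, phi (ρ m) (v m) g‖ ^ 2 ∂(haarU n) + 1 / β * β := by
          rw [integral_add]
          · rw [integral_const_mul, setIntegral_const, smul_eq_mul, mul_comm β]
          · exact (int_cont (continuous_const.mul (hfc.norm.pow 2))).integrableOn
          · exact (integrable_const _).integrableOn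
      _ ≤ β / 4 * (F.card : ℝ) + 1 / β * β := by
          have h7 : ∫ g in N, ‖∑ m ∈ F, phi (ρ m) (v m) g‖ ^ 2 ∂(haarU n) ≤
              ∫ g, ‖∑ m ∈ F, phi (ρ m) (v m) g‖ ^ 2 ∂(haarU n) := by
            refine setIntegral_le_integral (int_cont (hfc.norm.pow 2)) ?_
            exact Eventually.of_forall fun g => by positivity
          gcongr
          exact h7.trans hL2
      _ = (F.card : ℝ) * β / 4 + 1 := by
          field_simp
  have h8 := hlow.trans hup
  rw [le_div_iff₀ hβ0]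
  nlinarith

end FIN

open FIX ORT FIN in
theorem FIN_proof (hEQC : Stmt_EQC) : Stmt_FIN := by
  classical
  intro n ρ D c hirr hni hD hc
  have hunit : ∀ m, ∃ v : (ρ m).Sp, ‖v‖ = 1 := fun m =>
    ⟨EuclideanSpace.single (⟨0, (hirr m).1⟩ : Fin (ρ m).dim) 1, by simp⟩
  choose v hv using hunit
  rw [tendsto_atTop]
  intro C
  obtain ⟨N, hN, hNC⟩ := hEQC n (Real.sqrt C)
  obtain ⟨N', hN'N, hN'o, hN'1⟩ := mem_nhds_iff.mp hN
  have hfin : {m | c m < C}.Finite := by
    by_contra hinf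
    obtain ⟨F, hFs, hFc⟩ := Set.Infinite.exists_subset_card_eq hinf
      (Nat.floor (4 / (haarU n).real N') + 1)
    have hb := card_bound ρ v hv hirr hni ORT_proof F N' hN'o hN'1 (by
      intro m hm g hg
      have hcm : c m < C := hFs hm
      exact hNC (ρ m) (D m) (hD m) (fun i j => Real.le_sqrt_of_sq_le ((hc m i j).trans hcm.le))
        g (hN'N hg))
    rw [hFc] at hb
    push_cast at hb
    have := Nat.lt_floor_add_one (4 / (haarU n).real N')
    linarith
  have h1 : ∀ᶠ m in Filter.cofinite, C ≤ c m := by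
    rw [Filter.eventually_cofinite]
    simpa using hfin
  rwa [Nat.cofinite_eq_atTop] at h1

end Pool.Agent.Helper64_FR
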