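import Pool.Agent.Helper64_FR.Basic

/-!
# The adjoint representation exists as a `URep`
-/

open Matrix

namespace Pool.Agent.Helper64_FR

namespace AdjEx

variable {n : ℕ}

/-- matrices with the Frobenius inner product -/
abbrev E (n : ℕ) : Type := EuclideanSpace ℂ (Fin n × Fin n)

/-- from matrices to vectors -/
noncomputable def toE : Matrix (Fin n) (Fin n) ℂ →ₗ[ℂ] E n where
  toFun X := WithLp.toLp 2 (fun p => X p.1 p.2)
  map_add' _ _ := rfl
  map_smul' _ _ := rfl

/-- from vectors to matrices -/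
noncomputable def ofE : E n →ₗ[ℂ] Matrix (Fin n) (Fin n) ℂ where
  toFun x := Matrix.of fun i j => x (i, j)
  map_add' _ _ := rfl
  map_smul' _ _ := rfl

@[simp] theorem ofE_toE (X : Matrix (Fin n) (Fin n) ℂ) : ofE (toE X) = X := rfl

@[simp] theorem toE_ofE (x : E n) : toE (ofE x) = x := rfl

theorem inner_toE (X Y : Matrix (Fin n) (Fin n) ℂ) :
    (inner ℂ (toE X) (toE Y) : ℂ) = (star X * Y).trace := by
  rw [PiLp.inner_apply, Matrix.trace, Fintype.sum_prod_type_right]
  refine Finset.sum_congr rfl fun j _ => ?_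
  rw [Matrix.diag_apply, Matrix.mul_apply]
  refine Finset.sum_congr rfl fun i _ => ?_
  rw [Matrix.star_apply]
  show (inner ℂ (X i j) (Y i j) : ℂ) = _
  rw [RCLike.inner_apply, mul_comm]
  rfl

/-- the traceless matrices -/
noncomputable def W (n : ℕ) : Submodule ℂ (E n) :=
  LinearMap.ker ((Matrix.traceLinearMap (Fin n) ℂ ℂ) ∘ₗ (ofE (n := n)))

theorem mem_W (x : E n) : x ∈ W n ↔ (ofE x).trace = 0 := Iff.rfl

/-- conjugation -/
noncomputable def cj (g : UU n) : Matrix (Fin n) (Fin n) ℂ →ₗ[ℂ] Matrix (Fin n) (Fin n) ℂ where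
  toFun X := (g : Matrix (Fin n) (Fin n) ℂ) * X * ((g⁻¹ : UU n) : Matrix (Fin n) (Fin n) ℂ)
  map_add' X Y := by rw [mul_add, add_mul]
  map_smul' c X := by simp

theorem coe_inv (g : UU n) : ((g⁻¹ : UU n) : Matrix (Fin n) (Fin n) ℂ) =
    star (g : Matrix (Fin n) (Fin n) ℂ) := rfl

theorem star_mul_coe (g : UU n) : star (g : Matrix (Fin n) (Fin n) ℂ) * g = 1 :=
  (Matrix.mem_unitaryGroup_iff').mp g.2

theorem trace_cj (g : UU n) (X : Matrix (Fin n) (Fin n) ℂ) : (cj g X).trace = X.trace := by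
  show ((g : Matrix (Fin n) (Fin n) ℂ) * X * star (g : Matrix (Fin n) (Fin n) ℂ)).trace = _
  rw [Matrix.trace_mul_comm, ← mul_assoc, star_mul_coe, one_mul]

theorem cj_mul (g h : UU n) (X : Matrix (Fin n) (Fin n) ℂ) : cj (g * h) X = cj g (cj h X) := by
  show ((g * h : UU n) : Matrix (Fin n) (Fin n) ℂ) * X *
    (((g * h)⁻¹ : UU n) : Matrix (Fin n) (Fin n) ℂ) = (g : Matrix (Fin n) (Fin n) ℂ) *
    ((h : Matrix (Fin n) (Fin n) ℂ) * X * ((h⁻¹ : UU n) : Matrix (Fin n) (Fin n) ℂ)) *
    ((g⁻¹ : UU n) : Matrix (Fin n) (Fin n) ℂ)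
  rw [_root_.mul_inv_rev]
  show ((g : Matrix (Fin n) (Fin n) ℂ) * h) * X *
    (((h⁻¹ : UU n) : Matrix (Fin n) (Fin n) ℂ) * ((g⁻¹ : UU n) : Matrix (Fin n) (Fin n) ℂ)) = _
  simp only [mul_assoc]

theorem cj_one (X : Matrix (Fin n) (Fin n) ℂ) : cj 1 X = X := by
  show ((1 : UU n) : Matrix (Fin n) (Fin n) ℂ) * X *
    (((1 : UU n)⁻¹ : UU n) : Matrix (Fin n) (Fin n) ℂ) = X
  rw [inv_one]
  simp

theorem star_cj (g : UU n) (X : Matrix (Fin n) (Fin n) ℂ) : star (cj g X) = cj g (star X) := by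
  show star ((g : Matrix (Fin n) (Fin n) ℂ) * X * star (g : Matrix (Fin n) (Fin n) ℂ)) =
    (g : Matrix (Fin n) (Fin n) ℂ) * star X * star (g : Matrix (Fin n) (Fin n) ℂ)
  rw [star_mul, star_mul, star_star, mul_assoc]

theorem cj_mul_cj (g : UU n) (X Y : Matrix (Fin n) (Fin n) ℂ) :
    cj g X * cj g Y = cj g (X * Y) := by
  show ((g : Matrix (Fin n) (Fin n) ℂ) * X * star (g : Matrix (Fin n) (Fin n) ℂ)) *
    ((g : Matrix (Fin n) (Fin n) ℂ) * Y * star (g : Matrix (Fin n) (Fin n) ℂ)) =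
    (g : Matrix (Fin n) (Fin n) ℂ) * (X * Y) * star (g : Matrix (Fin n) (Fin n) ℂ)
  calc _ = (g : Matrix (Fin n) (Fin n) ℂ) * X * (star (g : Matrix (Fin n) (Fin n) ℂ) * g) * Y *
        star (g : Matrix (Fin n) (Fin n) ℂ) := by simp only [mul_assoc]
    _ = _ := by rw [star_mul_coe, mul_one]; simp only [mul_assoc]

/-- the action on the traceless matrices -/
noncomputable def act (g : UU n) : W n →ₗ[ℂ] W n :=
  LinearMap.restrict (toE ∘ₗ cj g ∘ₗ ofE) (fun x hx => by
    rw [mem_W] at hx ⊢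
    show (cj g (ofE x)).trace = 0
    rw [trace_cj, hx])

theorem act_coe (g : UU n) (x : W n) : ((act g x : W n) : E n) = toE (cj g (ofE (x : E n))) := rfl

theorem act_mul (g h : UU n) : act (g * h) = act g * act h := by
  ext1 x
  apply Subtype.ext
  rw [Module.End.mul_apply, act_coe, act_coe, act_coe, ofE_toE, cj_mul]

theorem act_one : act (1 : UU n) = 1 := by
  ext1 x
  apply Subtype.ext
  rw [act_coe, cj_one, toE_ofE, Module.End.one_apply]

theorem act_inner (g : UU n) (x y : W n) : (inner ℂ (act g x) (act g y) : ℂ) = inner ℂ x y := by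
  rw [Submodule.coe_inner, Submodule.coe_inner, act_coe, act_coe, inner_toE, star_cj, cj_mul_cj,
    trace_cj, ← inner_toE, toE_ofE, toE_ofE]

/-- an orthonormal basis of the traceless matrices -/
noncomputable def bas (n : ℕ) : OrthonormalBasis (Fin (Module.finrank ℂ (W n))) ℂ (W n) :=
  stdOrthonormalBasis ℂ (W n)

/-- the matrix of the action -/
noncomputable def mt (g : UU n) : Matrix (Fin (Module.finrank ℂ (W n)))
    (Fin (Module.finrank ℂ (W n))) ℂ := LinearMap.toMatrix (bas n).toBasis (bas n).toBasis (act g)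

theorem mt_apply (g : UU n) (i j : Fin (Module.finrank ℂ (W n))) :
    mt g i j = inner ℂ (bas n i) (act g (bas n j)) := by
  rw [mt, LinearMap.toMatrix_apply, OrthonormalBasis.coe_toBasis,
    OrthonormalBasis.coe_toBasis_repr_apply, OrthonormalBasis.repr_apply_apply]

theorem mt_mul (g h : UU n) : mt (g * h) = mt g * mt h := by
  rw [mt, act_mul, LinearMap.toMatrix_mul]
  rfl

theorem mt_one : mt (1 : UU n) = 1 := by
  rw [mt, act_one, LinearMap.toMatrix_one]

theorem mt_star (g : UU n) : star (mt g) = mt g⁻¹ := by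
  ext i j
  have h0 : (starRingEnd ℂ) (inner ℂ (bas n j) (act g (bas n i)) : ℂ) =
      inner ℂ (act g (bas n i)) (bas n j) := inner_conj_symm (𝕜 := ℂ) (E := W n) _ _
  have h1 : star (inner ℂ (bas n j) (act g (bas n i)) : ℂ) =
      inner ℂ (act g (bas n i)) (bas n j) := h0
  rw [Matrix.star_apply, mt_apply, mt_apply, h1,
    ← act_inner g (bas n i) (act g⁻¹ (bas n j)), ← Module.End.mul_apply, ← act_mul,
    mul_inv_cancel, act_one, Module.End.one_apply]

theorem mt_mem (g : UU n) : mt g ∈ Matrix.unitaryGroup (Fin (Module.finrank ℂ (W n))) ℂ := by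
  rw [Matrix.mem_unitaryGroup_iff, mt_star, ← mt_mul, mul_inv_cancel, mt_one]

theorem continuous_mt : Continuous (mt (n := n)) := by
  refine continuous_matrix fun i j => ?_
  simp only [mt_apply, Submodule.coe_inner, act_coe]
  refine Continuous.inner continuous_const ?_
  have h1 : Continuous fun g : UU n => (g : Matrix (Fin n) (Fin n) ℂ) := continuous_subtype_val
  have h2 : Continuous fun g : UU n => cj g (ofE ((bas n j : W n) : E n)) := by
    show Continuous fun g : UU n => (g : Matrix (Fin n) (Fin n) ℂ) *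
      (ofE ((bas n j : W n) : E n)) * star (g : Matrix (Fin n) (Fin n) ℂ)
    exact (h1.mul continuous_const).mul (continuous_star.comp h1)
  exact (LinearMap.continuous_of_finiteDimensional (toE (n := n))).comp h2

/-- the adjoint representation -/
noncomputable def adj (n : ℕ) : URep n where
  dim := Module.finrank ℂ (W n)
  hom :=
    { toFun := fun g => ⟨mt g, mt_mem g⟩
      map_one' := Subtype.ext mt_one
      map_mul' := fun g h => Subtype.ext (mt_mul g h) }
  cont := continuous_mt.subtype_mk _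

theorem adj_isAdjoint (n : ℕ) : (adj n).IsAdjoint := by
  let T : Matrix (Fin n) (Fin n) ℂ →ₗ[ℂ] (Fin (adj n).dim → ℂ) :=
    { toFun := fun X i => inner ℂ ((bas n i : W n) : E n) (toE X)
      map_add' := fun X Y => by
        ext i
        simp
      map_smul' := fun c X => by
        ext i
        simp }
  have hT : ∀ (x : W n), T (ofE (x : E n)) = fun i => (bas n).repr x i := by
    intro x
    ext i
    show (inner ℂ ((bas n i : W n) : E n) (toE (ofE (x : E n))) : ℂ) = _
    rw [toE_ofE, ← Submodule.coe_inner, OrthonormalBasis.repr_apply_apply]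
  refine ⟨T, ?_, ?_⟩
  · intro y
    refine ⟨ofE (((bas n).repr.symm (WithLp.toLp 2 y) : W n) : E n), ⟨?_, ?_⟩, ?_⟩
    · exact (mem_W _).mp ((bas n).repr.symm (WithLp.toLp 2 y)).2
    · rw [hT]
      ext i
      rw [LinearIsometryEquiv.apply_symm_apply]
    · rintro X ⟨hX, hXy⟩
      have hmem : toE X ∈ W n := by rw [mem_W, ofE_toE]; exact hX
      have h1 := hT ⟨toE X, hmem⟩
      simp only [ofE_toE] at h1
      have h2 : (bas n).repr ⟨toE X, hmem⟩ = WithLp.toLp 2 y := by
        ext i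
        rw [← hXy, h1]
      have h5 : (⟨toE X, hmem⟩ : W n) = (bas n).repr.symm (WithLp.toLp 2 y) :=
        (LinearIsometryEquiv.eq_symm_apply _).mpr h2
      exact congrArg (fun z : W n => ofE (z : E n)) h5
  · intro g X hX
    have hmem : toE X ∈ W n := by rw [mem_W, ofE_toE]; exact hX
    have h1 := hT ⟨toE X, hmem⟩
    have h2 := hT (act g ⟨toE X, hmem⟩)
    simp only [ofE_toE, act_coe] at h1 h2
    show T (cj g X) = mt g *ᵥ (T X)
    rw [h1, h2, mt]
    have h3 := LinearMap.toMatrix_mulVec_repr (bas n).toBasis (bas n).toBasis (act g)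
      ⟨toE X, hmem⟩
    ext i
    have h4 := congrFun h3 i
    rw [OrthonormalBasis.coe_toBasis_repr_apply] at h4
    rw [← h4]
    congr 1

end AdjEx

end Pool.Agent.Helper64_FR
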