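import Pool.Agent.Helper64_FR.Stmt

/-!
# All but finitely many irreducible representations dominate cuts
-/

open MeasureTheory Matrix Filter Topology

namespace Pool.Agent.Helper64_FR

theorem CERT_proof (hDER : Stmt_DER) (hCAS : Stmt_CAS) (hFIN : Stmt_FIN) (hPAT : Stmt_PAT)
    (hLIM : Stmt_LIM) : Stmt_CERT := by
  classical
  intro n hn δ hδ
  by_contra hcon
  push Not at hcon
  -- a sequence of bad representations
  obtain ⟨ρ, hρ1, hρ2⟩ := exists_seq_of_forall_finset_exists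
    (fun ρ : URep n => ρ.Irred ∧ ∃ v : ρ.Sp, ‖v‖ = 1 ∧
      ¬ CutCert n δ (fun B => ‖v - ρ.P B v‖ ^ 2))
    (fun σ ρ : URep n => ¬ ρ.Iso σ) (by
      intro F _
      obtain ⟨ρ, h1, h2, v, hv, h3⟩ := hcon F
      exact ⟨ρ, ⟨h1, v, hv, h3⟩, h2⟩)
  choose hirr v hv hbad using hρ1
  choose D hD using fun m => hDER n (ρ m)
  choose c _ hc hcn using fun m => hCAS n (ρ m) (D m) (hirr m) (hD m)
  have hct : Tendsto c atTop atTop := hFIN n ρ D c hirr hρ2 hD hcn
  obtain ⟨𝓤, H, _, _, _, L, x, hx, hlim⟩ := hLIM n ρ D c v hD hc hcn hct hv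
  obtain ⟨p, hp0, hp1, hp2, hp3⟩ := hPAT n hn H L x hx
  have hev : ∀ B : Finset (Fin n), ∀ᶠ m in (𝓤 : Filter ℕ),
      (1 - δ) * ∑ S, (if Crosses B S then p S else 0) ≤ ‖v m - (ρ m).P B (v m)‖ ^ 2 := by
    intro B
    have h0 : 0 ≤ ∑ S, (if Crosses B S then p S else 0) := by
      refine Finset.sum_nonneg fun S _ => ?_
      split_ifs
      · exact hp0 S
      · exact le_rfl
    rcases h0.eq_or_lt with h | h
    · refine Eventually.of_forall fun m => ?_
      rw [← h, mul_zero]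
      positivity
    · have h1 : (1 - 0) * ∑ S, (if Crosses B S then p S else 0) ≤ ‖x - L.P B x‖ ^ 2 := hp3 B
      have h2 : (1 - δ) * ∑ S, (if Crosses B S then p S else 0) < ‖x - L.P B x‖ ^ 2 := by
        have : (1 - δ) * ∑ S, (if Crosses B S then p S else 0) <
            (1 - 0) * ∑ S, (if Crosses B S then p S else 0) :=
          mul_lt_mul_of_pos_right (by linarith) h
        exact lt_of_lt_of_le this h1
      exact ((hlim B).eventually (lt_mem_nhds h2)).mono fun m hm => hm.le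
  have hall : ∀ᶠ m in (𝓤 : Filter ℕ), ∀ B : Finset (Fin n),
      (1 - δ) * ∑ S, (if Crosses B S then p S else 0) ≤ ‖v m - (ρ m).P B (v m)‖ ^ 2 :=
    eventually_all.mpr hev
  obtain ⟨m, hm⟩ := hall.exists
  exact hbad m ⟨p, hp0, hp1, hp2, hm⟩

end Pool.Agent.Helper64_FR
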