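import Mathlib

/-!
# Definitions: unitary representations of `U(n)`, the hypergraph Laplacian, the adjoint
representation (problem MP_3b0ba7_pr)
-/

open MeasureTheory Matrix

namespace Pool.Agent.Helper64_FR

/-- The unitary group `U(n)` (with the topology of matrices). -/
abbrev UU (n : ℕ) : Type := ↥(Matrix.unitaryGroup (Fin n) ℂ)

/-- The subgroup `U_B` of `U(n)`: unitary matrices that act on the span of `e_i`, `i ∈ B`, and
as the identity on the span of `e_j`, `j ∉ B`. -/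
def UB {n : ℕ} (B : Finset (Fin n)) : Subgroup (UU n) where
  carrier := {A | ∀ i j, (i ∉ B ∨ j ∉ B) →
    (A : Matrix (Fin n) (Fin n) ℂ) i j = if i = j then 1 else 0}
  one_mem' := by
    intro i j _
    simp [Matrix.one_apply]
  mul_mem' := by
    intro A C hA hC i j h
    have hA' : ∀ i j, (i ∉ B ∨ j ∉ B) →
      (A : Matrix (Fin n) (Fin n) ℂ) i j = if i = j then 1 else 0 := hA
    have hC' : ∀ i j, (i ∉ B ∨ j ∉ B) →
      (C : Matrix (Fin n) (Fin n) ℂ) i j = if i = j then 1 else 0 := hC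
    show ((A * C : UU n) : Matrix (Fin n) (Fin n) ℂ) i j = _
    rw [show ((A * C : UU n) : Matrix (Fin n) (Fin n) ℂ) = (A : Matrix (Fin n) (Fin n) ℂ) * C
      from rfl, Matrix.mul_apply]
    rcases h with h | h
    · have : ∀ k, (A : Matrix (Fin n) (Fin n) ℂ) i k = if i = k then 1 else 0 :=
        fun k => hA' i k (Or.inl h)
      simp only [this, ite_mul, one_mul, zero_mul, Finset.sum_ite_eq, Finset.mem_univ, if_true]
      exact hC' i j (Or.inl h)
    · have : ∀ k, (C : Matrix (Fin n) (Fin n) ℂ) k j = if k = j then 1 else 0 :=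
        fun k => hC' k j (Or.inr h)
      simp only [this, mul_ite, mul_one, mul_zero, Finset.sum_ite_eq', Finset.mem_univ, if_true]
      exact hA' i j (Or.inr h)
  inv_mem' := by
    intro A hA i j h
    have hA' : ∀ i j, (i ∉ B ∨ j ∉ B) →
      (A : Matrix (Fin n) (Fin n) ℂ) i j = if i = j then 1 else 0 := hA
    show ((A⁻¹ : UU n) : Matrix (Fin n) (Fin n) ℂ) i j = _
    rw [show ((A⁻¹ : UU n) : Matrix (Fin n) (Fin n) ℂ) = star (A : Matrix (Fin n) (Fin n) ℂ)
      from rfl, Matrix.star_apply, hA' j i h.symm]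
    by_cases hij : i = j
    · simp [hij]
    · simp [hij, Ne.symm hij]

noncomputable instance instMeasurableSpaceUU (n : ℕ) : MeasurableSpace (UU n) := borel _

instance instBorelSpaceUU (n : ℕ) : BorelSpace (UU n) := ⟨rfl⟩

theorem isClosed_unitaryGroup (n : ℕ) :
    IsClosed ((Matrix.unitaryGroup (Fin n) ℂ : Submonoid (Matrix (Fin n) (Fin n) ℂ)) :
      Set (Matrix (Fin n) (Fin n) ℂ)) := by
  have : ((Matrix.unitaryGroup (Fin n) ℂ : Submonoid (Matrix (Fin n) (Fin n) ℂ)) :
      Set (Matrix (Fin n) (Fin n) ℂ)) = {A | A * star A = 1} := by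
    ext A
    exact Matrix.mem_unitaryGroup_iff
  rw [this]
  exact isClosed_eq (continuous_id.mul continuous_star) continuous_const

theorem entry_norm_le_one {n : ℕ} (A : UU n) (i j : Fin n) :
    ‖(A : Matrix (Fin n) (Fin n) ℂ) i j‖ ≤ 1 := entry_norm_bound_of_unitary A.2 i j

instance instCompactSpaceUU (n : ℕ) : CompactSpace (UU n) := by
  refine isCompact_iff_compactSpace.mp ?_
  have hK : IsCompact (Set.univ.pi (fun _ : Fin n => Set.univ.pi
      (fun _ : Fin n => Metric.closedBall (0 : ℂ) 1)) : Set (Fin n → Fin n → ℂ)) :=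
    isCompact_univ_pi fun _ => isCompact_univ_pi fun _ => isCompact_closedBall _ _
  refine IsCompact.of_isClosed_subset hK (isClosed_unitaryGroup n) ?_
  intro A hA i _ j _
  rw [mem_closedBall_zero_iff]
  exact entry_norm_bound_of_unitary hA i j

theorem isClosed_UB {n : ℕ} (B : Finset (Fin n)) : IsClosed ((UB B : Subgroup (UU n)) :
    Set (UU n)) := by
  have : ((UB B : Subgroup (UU n)) : Set (UU n)) = ⋂ i, ⋂ j, ⋂ (_ : i ∉ B ∨ j ∉ B),
      {A : UU n | (A : Matrix (Fin n) (Fin n) ℂ) i j = if i = j then 1 else 0} := by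
    ext A
    simp only [Set.mem_iInter, Set.mem_ofPred_eq]
    rfl
  rw [this]
  refine isClosed_iInter fun i => isClosed_iInter fun j => isClosed_iInter fun _ => ?_
  refine isClosed_eq ?_ continuous_const
  exact (continuous_apply_apply i j).comp continuous_subtype_val

instance instCompactSpaceUB {n : ℕ} (B : Finset (Fin n)) : CompactSpace (UB B) :=
  isCompact_iff_compactSpace.mp (isClosed_UB B).isCompact

/-- The Haar probability measure of `U_B`. -/
noncomputable def haarB {n : ℕ} (B : Finset (Fin n)) : Measure (UB B) :=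
  Measure.haarMeasure ⊤

/-- A finite-dimensional continuous unitary representation of `U(n)`, written in an orthonormal
basis. -/
structure URep (n : ℕ) where
  /-- the dimension -/
  dim : ℕ
  /-- the representation -/
  hom : UU n →* UU dim
  /-- continuity -/
  cont : Continuous hom

namespace URep

variable {n : ℕ}

/-- The matrix of `ρ(g)`. -/
def mat (ρ : URep n) (g : UU n) : Matrix (Fin ρ.dim) (Fin ρ.dim) ℂ := (ρ.hom g).1

/-- Irreducibility: the space is nonzero and there is no proper nonzero invariant subspace. -/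
def Irred (ρ : URep n) : Prop :=
  0 < ρ.dim ∧ ∀ W : Submodule ℂ (Fin ρ.dim → ℂ), (∀ g : UU n, ∀ x ∈ W, ρ.mat g *ᵥ x ∈ W) →
    W = ⊥ ∨ W = ⊤

/-- Isomorphism of representations. -/
def Iso (ρ σ : URep n) : Prop :=
  ∃ T : (Fin ρ.dim → ℂ) ≃ₗ[ℂ] (Fin σ.dim → ℂ), ∀ (g : UU n) (x : Fin ρ.dim → ℂ),
    T (ρ.mat g *ᵥ x) = σ.mat g *ᵥ (T x)

/-- `α` is (isomorphic to) the adjoint representation `ρ_{(1,0,...,0,-1)}`: the action
`g X g⁻¹` on the traceless `n × n` matrices. -/
def IsAdjoint (α : URep n) : Prop :=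
  ∃ T : Matrix (Fin n) (Fin n) ℂ →ₗ[ℂ] (Fin α.dim → ℂ),
    (∀ y : Fin α.dim → ℂ, ∃! X : Matrix (Fin n) (Fin n) ℂ, X.trace = 0 ∧ T X = y) ∧
    ∀ (g : UU n) (X : Matrix (Fin n) (Fin n) ℂ), X.trace = 0 →
      T ((g : Matrix (Fin n) (Fin n) ℂ) * X * ((g⁻¹ : UU n) : Matrix (Fin n) (Fin n) ℂ)) =
        α.mat g *ᵥ (T X)

/-- The average `∫_{U_B} ρ(A) dμ_B(A)` (entry by entry). -/
noncomputable def avg (ρ : URep n) (B : Finset (Fin n)) : Matrix (Fin ρ.dim) (Fin ρ.dim) ℂ :=
  Matrix.of fun a b => ∫ A : UB B, ρ.mat (A : UU n) a b ∂(haarB B)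

/-- The Laplacian `L(Γ, ρ)` of the weighted hypergraph `Γ = ([n], w)`. -/
noncomputable def lap (ρ : URep n) (w : Finset (Fin n) → ℝ) : Matrix (Fin ρ.dim) (Fin ρ.dim) ℂ :=
  ∑ B : Finset (Fin n), (w B : ℂ) • (1 - ρ.avg B)

/-- The smallest eigenvalue of the Laplacian. -/
noncomputable def lamMin (ρ : URep n) (w : Finset (Fin n) → ℝ) : ℝ :=
  sInf {x : ℝ | ∃ v : Fin ρ.dim → ℂ, v ≠ 0 ∧ ρ.lap w *ᵥ v = (x : ℂ) • v}

/-! ### The operator form -/

/-- The Hilbert space of the representation. -/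
abbrev Sp (ρ : URep n) : Type := EuclideanSpace ℂ (Fin ρ.dim)

/-- `ρ(g)` as an operator. -/
noncomputable def op (ρ : URep n) (g : UU n) : ρ.Sp →L[ℂ] ρ.Sp :=
  Matrix.toEuclideanCLM (n := Fin ρ.dim) (𝕜 := ℂ) (ρ.mat g)

/-- The average over `U_B` as an operator. -/
noncomputable def P (ρ : URep n) (B : Finset (Fin n)) : ρ.Sp →L[ℂ] ρ.Sp :=
  Matrix.toEuclideanCLM (n := Fin ρ.dim) (𝕜 := ℂ) (ρ.avg B)

end URep

end Pool.Agent.Helper64_FR
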