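import Pool.Agent.Helper64_FR.Rot

/-!
# PAT: patterns of zeros, and cuts
-/

open Finset

namespace Pool.Agent.Helper64_FR

section comb

variable {n : ℕ}

/-- The block `B` is dead for the pattern `G`. -/
def Dead (G : Fin n → Fin n → Prop) (B : Finset (Fin n)) : Prop :=
  (∃ i ∈ B, ∃ j ∈ B, G i j) ∨
    ∃ i ∈ B, ∃ j ∈ B, ∃ l, i ≠ j ∧ l ≠ i ∧ l ≠ j ∧ G i l ∧ ¬ G j l

/-- Every nonempty pattern has a cut all of whose crossing blocks are dead. -/
theorem exists_cut (hn : 2 ≤ n) (G : Fin n → Fin n → Prop) (hne : ∃ i j, G i j) : ∃ S : Finset (Fin n), S.Nonempty ∧ S ≠ univ ∧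
      ∀ B, Crosses B S → Dead G B := by
  classical
  by_cases hloop : ∃ i, G i i
  · obtain ⟨i, hi⟩ := hloop
    refine ⟨{i}, singleton_nonempty i, ?_, ?_⟩
    · intro h
      have := congrArg Finset.card h
      rw [card_singleton, card_univ, Fintype.card_fin] at this
      omega
    · rintro B ⟨⟨j, hj, hji⟩, _⟩
      rw [mem_singleton] at hji
      subst hji
      exact Or.inl ⟨j, hj, j, hj, hi⟩
  · push Not at hloop
    obtain ⟨i, j, hij⟩ := hne
    refine ⟨univ.filter (fun l => ∀ m, G l m ↔ G i m), ⟨i, by simp⟩, ?_, ?_⟩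
    · intro h
      have : j ∈ univ.filter (fun l => ∀ m, G l m ↔ G i m) := by
        rw [h]; exact mem_univ j
      rw [mem_filter] at this
      exact hloop j ((this.2 j).mpr hij)
    · rintro B ⟨⟨p, hp, hpS⟩, q, hq, hqS⟩
      rw [mem_filter] at hpS hqS
      have hqS' : ¬ ∀ m, G q m ↔ G i m := fun h => hqS ⟨mem_univ _, h⟩
      push Not at hqS'
      obtain ⟨l, hl⟩ := hqS'
      have hpq : p ≠ q := by
        rintro rfl
        exact hqS hpS
      -- exactly one of `G p l`, `G q l`
      have hl' : (G p l ∧ ¬ G q l) ∨ (¬ G p l ∧ G q l) := by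
        rw [hpS.2 l]
        tauto
      by_cases hlp : l = p
      · subst hlp
        rcases hl' with ⟨h1, _⟩ | ⟨_, h2⟩
        · exact absurd h1 (hloop l)
        · exact Or.inl ⟨q, hq, l, hp, h2⟩
      · by_cases hlq : l = q
        · subst hlq
          rcases hl' with ⟨h1, _⟩ | ⟨_, h2⟩
          · exact Or.inl ⟨p, hp, l, hq, h1⟩
          · exact absurd h2 (hloop l)
        · rcases hl' with ⟨h1, h2⟩ | ⟨h1, h2⟩
          · exact Or.inr ⟨p, hp, q, hq, l, hpq, hlp, hlq, h1, h2⟩
          · exact Or.inr ⟨q, hq, p, hp, l, hpq.symm, hlq, hlp, h2, h1⟩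

end comb

section partition

variable {ι : Type} [Fintype ι] [DecidableEq ι] {A : Type*} [Ring A] [Algebra ℂ A]

/-- Commuting idempotents give a partition of unity indexed by the patterns. -/
theorem exists_partition (K : ι → A) (hcomm : ∀ p q, K p * K q = K q * K p)
    (hid : ∀ p, K p * K p = K p) : ∃ Q : (ι → Bool) → A, ∑ G, Q G = 1 ∧
      (∀ G p, G p = true → K p * Q G = 0 ∧ Q G * K p = 0) ∧
      (∀ G p, G p = false → K p * Q G = Q G ∧ Q G * K p = Q G) := by
  classical
  have hc : ∀ a ∈ Set.range K, ∀ b ∈ Set.range K, a * b = b * a := by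
    rintro _ ⟨p, rfl⟩ _ ⟨q, rfl⟩
    exact hcomm p q
  let _ : CommRing (Algebra.adjoin ℂ (Set.range K)) := Algebra.adjoinCommRingOfComm ℂ hc
  let k : ι → Algebra.adjoin ℂ (Set.range K) := fun p =>
    ⟨K p, Algebra.subset_adjoin (Set.mem_range_self p)⟩
  have hk : ∀ p, k p * k p = k p := fun p => Subtype.ext (hid p)
  let f : ι → Bool → Algebra.adjoin ℂ (Set.range K) := fun p b => if b then 1 - k p else k p
  let π : (ι → Bool) → Algebra.adjoin ℂ (Set.range K) := fun G => ∏ p, f p (G p)
  have hsum : ∑ G, π G = 1 := by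
    have h1 := Finset.prod_univ_sum (fun _ : ι => (univ : Finset Bool)) f
    rw [Fintype.piFinset_univ] at h1
    rw [show ∑ G, π G = ∑ x : ι → Bool, ∏ i, f i (x i) from rfl, ← h1]
    refine Finset.prod_eq_one fun p _ => ?_
    rw [Fintype.sum_bool]
    simp [f]
  have h1 : ∀ G p, G p = true → k p * π G = 0 := by
    intro G p h
    show k p * ∏ p, f p (G p) = 0
    rw [← Finset.mul_prod_erase univ (fun p => f p (G p)) (mem_univ p), ← mul_assoc]
    have : k p * f p (G p) = 0 := by
      simp only [f, h, if_true, mul_sub, mul_one, hk, sub_self]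
    rw [this, zero_mul]
  have h2 : ∀ G p, G p = false → k p * π G = π G := by
    intro G p h
    show k p * ∏ p, f p (G p) = ∏ p, f p (G p)
    rw [← Finset.mul_prod_erase univ (fun p => f p (G p)) (mem_univ p), ← mul_assoc]
    have : k p * f p (G p) = f p (G p) := by
      simp [f, h, hk]
    rw [this]
  refine ⟨fun G => (π G : A), ?_, ?_, ?_⟩
  · have := congrArg (Algebra.adjoin ℂ (Set.range K)).val hsum
    rw [map_sum, map_one] at this
    exact this
  · intro G p h
    refine ⟨congrArg Subtype.val (h1 G p h), ?_⟩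
    have := congrArg Subtype.val ((mul_comm (π G) (k p)).trans (h1 G p h))
    exact this
  · intro G p h
    refine ⟨congrArg Subtype.val (h2 G p h), ?_⟩
    have := congrArg Subtype.val ((mul_comm (π G) (k p)).trans (h2 G p h))
    exact this

end partition

section pat

variable {n : ℕ} {H : Type} [NormedAddCommGroup H] [InnerProductSpace ℂ H] [CompleteSpace H]
  (L : LimData n H)

namespace LimData

/-- The spectral projections of the patterns. -/
theorem exists_patterns : ∃ Q : (Fin n × Fin n → Bool) → (H →L[ℂ] H), ∑ G, Q G = 1 ∧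
    (∀ G, star (Q G) = Q G) ∧ (∀ G, Q G * Q G = Q G) ∧
    (∀ G p, G p = true → Q G * kerP (L.a p.1 p.2) = 0) ∧
    (∀ G p, G p = false → Q G * kerP (L.a p.1 p.2) = Q G) ∧
    (∀ G p, G p = true → kerP (L.a p.1 p.2) * Q G = 0) ∧
    (∀ G p, G p = false → kerP (L.a p.1 p.2) * Q G = Q G) := by
  obtain ⟨Q, h1, h2, h3⟩ := exists_partition
    (fun p : Fin n × Fin n => kerP (L.a p.1 p.2))
    (fun p q => L.kerP_comm_kerP p.1 p.2 q.1 q.2) (fun p => kerP_idem _)
  have hdis : ∀ (T : H →L[ℂ] H) (G G' : Fin n × Fin n → Bool), G ≠ G' →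
      (∀ p, G p = true → T * kerP (L.a p.1 p.2) = 0) →
      (∀ p, G p = false → T * kerP (L.a p.1 p.2) = T) → T * Q G' = 0 := by
    intro T G G' hne hT1 hT2
    obtain ⟨p, hp⟩ := Function.ne_iff.mp hne
    rcases hG : G p with _ | _
    · have hG' : G' p = true := by
        rcases h : G' p with _ | _
        · rw [hG, h] at hp; exact absurd rfl hp
        · rfl
      rw [← hT2 p hG, mul_assoc, (h2 G' p hG').1, mul_zero]
    · have hG' : G' p = false := by
        rcases h : G' p with _ | _
        · rfl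
        · rw [hG, h] at hp; exact absurd rfl hp
      rw [← (h3 G' p hG').1, ← mul_assoc, hT1 p hG, zero_mul]
  have hmul : ∀ (T : H →L[ℂ] H) (G : Fin n × Fin n → Bool),
      (∀ p, G p = true → T * kerP (L.a p.1 p.2) = 0) →
      (∀ p, G p = false → T * kerP (L.a p.1 p.2) = T) → T * Q G = T := by
    intro T G hT1 hT2
    have e : T * ∑ G', Q G' = T := by rw [h1, mul_one]
    rw [Finset.mul_sum, Finset.sum_eq_single G] at e
    · exact e
    · intro G' _ hne
      exact hdis T G G' hne.symm hT1 hT2
    · simp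
  have hstar : ∀ G, star (Q G) = Q G := by
    intro G
    have e1 : star (Q G) * Q G = star (Q G) := by
      apply hmul
      · intro p hp
        have := congrArg star (h2 G p hp).1
        rwa [star_mul, kerP_star, star_zero] at this
      · intro p hp
        have := congrArg star (h3 G p hp).1
        rwa [star_mul, kerP_star] at this
    have e2 := congrArg star e1
    rw [star_mul, star_star, e1] at e2
    exact e2
  refine ⟨Q, h1, hstar, ?_, fun G p h => (h2 G p h).2, fun G p h => (h3 G p h).2,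
    fun G p h => (h2 G p h).1, fun G p h => (h3 G p h).1⟩
  intro G
  exact hmul (Q G) G (fun p hp => (h2 G p hp).2) (fun p hp => (h3 G p hp).2)

end LimData

theorem PAT_proof : Stmt_PAT := by
  classical
  intro n hn H _ _ _ L x hx
  obtain ⟨Q, hsum, hstar, hidem, hT, hF, hT', hF'⟩ := L.exists_patterns
  -- norms
  have hnorm : ∀ (y : H), ∑ G, ‖Q G y‖ ^ 2 = ‖y‖ ^ 2 := by
    intro y
    have h1 : ∀ G, (inner ℂ y (Q G y) : ℂ) = ((‖Q G y‖ ^ 2 : ℝ) : ℂ) := by
      intro G
      have : (inner ℂ (Q G y) (Q G y) : ℂ) = inner ℂ y (Q G y) := by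
        rw [← ContinuousLinearMap.adjoint_inner_right, ← ContinuousLinearMap.star_eq_adjoint,
          hstar, ← mul_apply_eq_comp, hidem]
      rw [← this, inner_self_eq_norm_sq_to_K]
      norm_cast
    have h2 : (inner ℂ y y : ℂ) = ∑ G, inner ℂ y (Q G y) := by
      rw [← inner_sum, ← _root_.sum_apply, hsum, one_apply_eq_self]
    simp only [h1] at h2
    rw [inner_self_eq_norm_sq_to_K] at h2
    have h3 : ‖y‖ ^ 2 = ∑ G, ‖Q G y‖ ^ 2 := by
      have h4 : ((‖y‖ : ℂ)) ^ 2 = ∑ G, ((‖Q G y‖ ^ 2 : ℝ) : ℂ) := h2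
      exact_mod_cast h4
    exact h3.symm
  -- the cut of a pattern
  have hcut : ∀ G : Fin n × Fin n → Bool, ∃ S : Finset (Fin n),
      (Q G ≠ 0 → S.Nonempty ∧ S ≠ univ) ∧
      (Q G ≠ 0 → ∀ B, Crosses B S → Dead (fun i j => G (i, j) = true) B) := by
    intro G
    by_cases hG : Q G = 0
    · exact ⟨∅, fun h => absurd hG h, fun h => absurd hG h⟩
    · have hne : ∃ i j, G (i, j) = true := by
        by_contra hc
        push Not at hc
        apply hG
        have hz : ∀ i j, L.a i j * Q G = 0 := by
          intro i j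
          have hf : G (i, j) = false := by simpa using hc i j
          have e1 := hF' G (i, j) hf
          simp only at e1
          rw [← e1, ← mul_assoc, mul_kerP, zero_mul]
        calc Q G = (∑ i, ∑ j, star (L.a i j) * L.a i j) * Q G := by rw [L.a_sum, one_mul]
          _ = 0 := by
            rw [Finset.sum_mul]
            refine Finset.sum_eq_zero fun i _ => ?_
            rw [Finset.sum_mul]
            refine Finset.sum_eq_zero fun j _ => ?_
            rw [mul_assoc, hz, mul_zero]
      obtain ⟨S, hS1, hS2, hS3⟩ := exists_cut hn (fun i j => G (i, j) = true) hne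
      exact ⟨S, fun _ => ⟨hS1, hS2⟩, fun _ => hS3⟩
  choose S hS1 hS2 using hcut
  -- dead blocks
  have hdead : ∀ G B, Dead (fun i j => G (i, j) = true) B → Q G * L.P B = 0 := by
    intro G B hd
    rcases hd with ⟨i, hi, j, hj, hij⟩ | ⟨i, hi, j, hj, l, hij, hli, hlj, h1, h2⟩
    · have e1 : kerP (L.a i j) * L.P B = L.P B := kerP_mul_of (L.a_P B i hi j hj)
      have e2 := hT G (i, j) hij
      simp only at e2
      rw [← e1, ← mul_assoc, e2, zero_mul]
    · have e1 := hT G (i, l) h1
      have e2 := hF G (j, l) (by simpa using h2)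
      simp only at e1 e2
      ext y
      rw [mul_apply_eq_comp, zero_apply]
      have hu : ∀ t : ℝ, L.U (rfU hij t) (L.P B y) = L.P B y := by
        intro t
        rw [← mul_apply_eq_comp, L.U_P B _ (rfU_mem hij t hi hj)]
      have hrot := L.rot hij hli hlj (L.P B y) hu
      rw [← e2, mul_apply_eq_comp, ← hrot, ← mul_apply_eq_comp (Q G), e1, zero_apply]
  refine ⟨fun T => ∑ G, if S G = T then ‖Q G x‖ ^ 2 else 0, ?_, ?_, ?_, ?_⟩
  · intro T
    refine Finset.sum_nonneg fun G _ => ?_
    split_ifs
    · positivity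
    · exact le_refl _
  · intro T hT0
    obtain ⟨G, _, hG⟩ := Finset.exists_ne_zero_of_sum_ne_zero hT0
    have hST : S G = T := by
      by_contra hc
      rw [if_neg hc] at hG
      exact hG rfl
    rw [if_pos hST] at hG
    have hQ : Q G ≠ 0 := by
      intro h
      rw [h] at hG
      simp at hG
    rw [← hST]
    exact hS1 G hQ
  · rw [Finset.sum_comm]
    have : ∀ G, (∑ T : Finset (Fin n), if S G = T then ‖Q G x‖ ^ 2 else 0) = ‖Q G x‖ ^ 2 := by
      intro G
      rw [Finset.sum_ite_eq]
      simp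
    simp only [this]
    rw [hnorm, hx, one_pow]
  · intro B
    rw [sub_zero, one_mul]
    have e1 : ∑ T, (if Crosses B T then ∑ G, (if S G = T then ‖Q G x‖ ^ 2 else 0) else 0) =
        ∑ G, (if Crosses B (S G) then ‖Q G x‖ ^ 2 else 0) := by
      have : ∀ T, (if Crosses B T then ∑ G, (if S G = T then ‖Q G x‖ ^ 2 else 0) else 0) =
          ∑ G, (if S G = T then (if Crosses B (S G) then ‖Q G x‖ ^ 2 else 0) else 0) := by
        intro T
        by_cases hc : Crosses B T
        · rw [if_pos hc]
          refine Finset.sum_congr rfl fun G _ => ?_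
          by_cases hST : S G = T
          · rw [if_pos hST, if_pos hST, hST, if_pos hc]
          · rw [if_neg hST, if_neg hST]
        · rw [if_neg hc]
          symm
          refine Finset.sum_eq_zero fun G _ => ?_
          by_cases hST : S G = T
          · rw [if_pos hST, hST, if_neg hc]
          · rw [if_neg hST]
      simp only [this]
      rw [Finset.sum_comm]
      refine Finset.sum_congr rfl fun G _ => ?_
      rw [Finset.sum_ite_eq]
      simp
    show _ ≤ ‖x - L.P B x‖ ^ 2
    rw [e1, ← hnorm (x - L.P B x)]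
    refine Finset.sum_le_sum fun G _ => ?_
    by_cases hc : Crosses B (S G)
    · rw [if_pos hc]
      by_cases hQ : Q G = 0
      · rw [hQ]; simp
      · have h0 := hdead G B (hS2 G hQ B hc)
        rw [map_sub, ← mul_apply_eq_comp (Q G) (L.P B), h0, zero_apply, sub_zero]
    · rw [if_neg hc]
      positivity

end pat

end Pool.Agent.Helper64_FR
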