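import Pool.Agent.Helper64_FR.Lim
import Pool.Agent.Helper64_FR.Pat
import Pool.Agent.Helper64_FR.FIX
import Pool.Agent.Helper64_FR.FIN
import Pool.Agent.Helper64_FR.ORT
import Pool.Agent.Helper64_FR.CERT
import Pool.Agent.Helper64_FR.LOW
import Pool.Agent.Helper73_FR.Cas
import Pool.Agent.Helper73_FR.Eqc

/-!
# FINAL: the finite reduction theorem
-/

open MeasureTheory Matrix Filter Topology

namespace Pool.Agent.Helper64_FR

/-- The weight of the lightest cut, not counting the block `[n]`. -/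
noncomputable def minCut (n : ℕ) (w : Finset (Fin n) → ℝ) : ℝ :=
  sInf {x : ℝ | ∃ S : Finset (Fin n), S.Nonempty ∧ S ≠ Finset.univ ∧ x = cutW w S}

theorem minCut_spec {n : ℕ} (hn : 2 ≤ n) (w : Finset (Fin n) → ℝ) :
    (∃ S : Finset (Fin n), S.Nonempty ∧ S ≠ Finset.univ ∧ minCut n w = cutW w S) ∧
    ∀ S : Finset (Fin n), S.Nonempty → S ≠ Finset.univ → minCut n w ≤ cutW w S := by
  classical
  set A : Set ℝ := {x : ℝ | ∃ S : Finset (Fin n), S.Nonempty ∧ S ≠ Finset.univ ∧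
    x = cutW w S} with hA
  have hfin : A.Finite := by
    refine (Set.finite_range (fun S : Finset (Fin n) => cutW w S)).subset ?_
    rintro x ⟨S, _, _, rfl⟩
    exact ⟨S, rfl⟩
  have hne : A.Nonempty := by
    refine ⟨cutW w {⟨0, by omega⟩}, {⟨0, by omega⟩}, Finset.singleton_nonempty _, ?_, rfl⟩
    intro h
    have := congrArg Finset.card h
    rw [Finset.card_singleton, Finset.card_univ, Fintype.card_fin] at this
    omega
  constructor
  · exact hne.csInf_mem hfin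
  · intro S h1 h2
    exact csInf_le hfin.bddBelow ⟨S, h1, h2, rfl⟩

/-- The two bounds and the finite reduction. -/
theorem final_aux (hDER : Stmt_DER) (hDERP : Stmt_DERP) (hUP : Stmt_UP) (n : ℕ) (hn : 2 ≤ n) :
    (∀ ε : ℝ, 0 < ε → ∃ F : Finset (URep n), ∀ ρ : URep n, ρ.Irred → (∀ σ ∈ F, ¬ ρ.Iso σ) →
      ∀ w : Finset (Fin n) → ℝ, (∀ B, 0 ≤ w B) →
        w Finset.univ + (1 - ε) * minCut n w ≤ ρ.lamMin w) ∧
    (∀ α : URep n, α.IsAdjoint → ∀ w : Finset (Fin n) → ℝ, (∀ B, 0 ≤ w B) →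
      α.lamMin w ≤ w Finset.univ + (1 - 1 / ((n : ℝ) - 1) ^ 2) * minCut n w) ∧
    (∃ F : Finset (URep n), ∀ ρ : URep n, ρ.Irred → (∀ σ ∈ F, ¬ ρ.Iso σ) →
      ∀ α : URep n, α.IsAdjoint → ∀ w : Finset (Fin n) → ℝ, (∀ B, 0 ≤ w B) →
        α.lamMin w ≤ ρ.lamMin w) := by
  have hFIX := FIX_proof
  have hCERT : Stmt_CERT := CERT_proof hDER H73.cas (FIN_proof H73.eqc) PAT_proof
    (LIM_proof hFIX hDERP)
  have hmin0 : ∀ w : Finset (Fin n) → ℝ, (∀ B, 0 ≤ w B) → 0 ≤ minCut n w := by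
    intro w hw
    obtain ⟨S, _, _, hS⟩ := (minCut_spec hn w).1
    rw [hS, cutW]
    refine Finset.sum_nonneg fun B _ => ?_
    split_ifs
    · exact hw B
    · exact le_refl _
  have h1 : ∀ ε : ℝ, 0 < ε → ∃ F : Finset (URep n), ∀ ρ : URep n, ρ.Irred →
      (∀ σ ∈ F, ¬ ρ.Iso σ) → ∀ w : Finset (Fin n) → ℝ, (∀ B, 0 ≤ w B) →
        w Finset.univ + (1 - ε) * minCut n w ≤ ρ.lamMin w := by
    intro ε hε
    set δ : ℝ := min ε (1 / 2) with hδ
    have hδ0 : 0 < δ := lt_min hε (by norm_num)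
    have hδ1 : δ < 1 := lt_of_le_of_lt (min_le_right _ _) (by norm_num)
    obtain ⟨F, hF⟩ := hCERT n hn δ hδ0
    refine ⟨F, fun ρ hρ hn' w hw => ?_⟩
    obtain ⟨S, hS1, hS2, hS3⟩ := LOW_proof n hn δ hδ0 hδ1 ρ hρ (hF ρ hρ hn') w hw
    refine le_trans ?_ hS3
    have hm := (minCut_spec hn w).2 S hS1 hS2
    have h0 := hmin0 w hw
    have hδε : δ ≤ ε := min_le_left _ _
    have e1 : (1 - ε) * minCut n w ≤ (1 - δ) * minCut n w :=
      mul_le_mul_of_nonneg_right (by linarith) h0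
    have e2 : (1 - δ) * minCut n w ≤ (1 - δ) * cutW w S :=
      mul_le_mul_of_nonneg_left hm (by linarith)
    linarith
  have h2 : ∀ α : URep n, α.IsAdjoint → ∀ w : Finset (Fin n) → ℝ, (∀ B, 0 ≤ w B) →
      α.lamMin w ≤ w Finset.univ + (1 - 1 / ((n : ℝ) - 1) ^ 2) * minCut n w := by
    intro α hα w hw
    obtain ⟨S, hS1, hS2, hS3⟩ := (minCut_spec hn w).1
    rw [hS3]
    exact hUP n hn α hα w hw S hS1 hS2
  refine ⟨h1, h2, ?_⟩
  have hn1 : (0 : ℝ) < (n : ℝ) - 1 := by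
    have : (2 : ℝ) ≤ n := by exact_mod_cast hn
    linarith
  obtain ⟨F, hF⟩ := h1 (1 / ((n : ℝ) - 1) ^ 2) (by positivity)
  exact ⟨F, fun ρ hρ hn' α hα w hw => (h2 α hα w hw).trans (hF ρ hρ hn' w hw)⟩

end Pool.Agent.Helper64_FR
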