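import Mathlib

/-!
# Ultraproducts of Hilbert spaces
-/

open Filter Topology UniformSpace

namespace Pool.Agent.Helper64_FR

section ulim

variable (𝓤 : Ultrafilter ℕ)

theorem exists_ulim {f : ℕ → ℂ} (hf : ∃ C : ℝ, ∀ m, ‖f m‖ ≤ C) :
    ∃ z, Tendsto f 𝓤 (𝓝 z) := by
  obtain ⟨C, hC⟩ := hf
  have hK : IsCompact (Metric.closedBall (0 : ℂ) C) := isCompact_closedBall _ _
  obtain ⟨z, _, hz⟩ := hK.ultrafilter_le_nhds (𝓤.map f) (by
    rw [le_principal_iff]
    exact mem_map.mpr (univ_mem' fun m => by simpa using hC m))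
  exact ⟨z, hz⟩

open Classical in
/-- The limit along an ultrafilter. -/
noncomputable def ulim (f : ℕ → ℂ) : ℂ :=
  if h : ∃ z, Tendsto f 𝓤 (𝓝 z) then h.choose else 0

theorem tendsto_ulim {f : ℕ → ℂ} (hf : ∃ C : ℝ, ∀ m, ‖f m‖ ≤ C) :
    Tendsto f 𝓤 (𝓝 (ulim 𝓤 f)) := by
  have h := exists_ulim 𝓤 hf
  rw [ulim, dif_pos h]
  exact h.choose_spec

theorem ulim_eq {f : ℕ → ℂ} {z : ℂ} (h : Tendsto f 𝓤 (𝓝 z)) : ulim 𝓤 f = z := by
  have h' : ∃ z, Tendsto f 𝓤 (𝓝 z) := ⟨z, h⟩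
  rw [ulim, dif_pos h']
  exact tendsto_nhds_unique h'.choose_spec h

end ulim

section space

variable (V : ℕ → Type) [∀ m, NormedAddCommGroup (V m)] [∀ m, InnerProductSpace ℂ (V m)]

/-- Bounded sequences of vectors. -/
def BSeq : Submodule ℂ (∀ m, V m) where
  carrier := {v | ∃ C : ℝ, ∀ m, ‖v m‖ ≤ C}
  zero_mem' := ⟨0, fun m => by simp⟩
  add_mem' := by
    rintro u v ⟨C, hC⟩ ⟨D, hD⟩
    exact ⟨C + D, fun m => (norm_add_le _ _).trans (add_le_add (hC m) (hD m))⟩
  smul_mem' := by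
    rintro c v ⟨C, hC⟩
    refine ⟨‖c‖ * C, fun m => ?_⟩
    rw [Pi.smul_apply, norm_smul]
    exact mul_le_mul_of_nonneg_left (hC m) (norm_nonneg c)

variable (𝓤 : Ultrafilter ℕ)

/-- The bounded sequences, with the seminorm given by the ultrafilter. -/
def PreU (_𝓤 : Ultrafilter ℕ) : Type := ↥(BSeq V)

instance : AddCommGroup (PreU V 𝓤) := inferInstanceAs (AddCommGroup ↥(BSeq V))
instance : Module ℂ (PreU V 𝓤) := inferInstanceAs (Module ℂ ↥(BSeq V))

variable {V 𝓤}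

/-- the value of a bounded sequence -/
def PreU.val (u : PreU V 𝓤) (m : ℕ) : V m := (show ↥(BSeq V) from u).1 m

theorem PreU.bdd (u : PreU V 𝓤) : ∃ C : ℝ, ∀ m, ‖u.val m‖ ≤ C := (show ↥(BSeq V) from u).2

/-- build an element from a bounded sequence -/
def PreU.mk (v : ∀ m, V m) (h : ∃ C : ℝ, ∀ m, ‖v m‖ ≤ C) : PreU V 𝓤 := (⟨v, h⟩ : ↥(BSeq V))

@[simp] theorem PreU.val_mk (v : ∀ m, V m) (h : ∃ C : ℝ, ∀ m, ‖v m‖ ≤ C) (m : ℕ) :
    (PreU.mk v h : PreU V 𝓤).val m = v m := rfl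

@[simp] theorem PreU.val_add (u v : PreU V 𝓤) (m : ℕ) : (u + v).val m = u.val m + v.val m := rfl

@[simp] theorem PreU.val_sub (u v : PreU V 𝓤) (m : ℕ) : (u - v).val m = u.val m - v.val m := rfl

@[simp] theorem PreU.val_smul (c : ℂ) (u : PreU V 𝓤) (m : ℕ) : (c • u).val m = c • u.val m := rfl

@[simp] theorem PreU.val_zero (m : ℕ) : (0 : PreU V 𝓤).val m = 0 := rfl

theorem PreU.ext' {u v : PreU V 𝓤} (h : ∀ m, u.val m = v.val m) : u = v :=
  Subtype.ext (funext h)

theorem PreU.inner_bdd (u v : PreU V 𝓤) :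
    ∃ C : ℝ, ∀ m, ‖(inner ℂ (u.val m) (v.val m) : ℂ)‖ ≤ C := by
  obtain ⟨C, hC⟩ := u.bdd
  obtain ⟨D, hD⟩ := v.bdd
  refine ⟨C * D, fun m => (norm_inner_le_norm _ _).trans ?_⟩
  exact mul_le_mul (hC m) (hD m) (norm_nonneg _) ((norm_nonneg _).trans (hC m))

theorem PreU.tendsto_inner (u v : PreU V 𝓤) :
    Tendsto (fun m => (inner ℂ (u.val m) (v.val m) : ℂ)) 𝓤
      (𝓝 (ulim 𝓤 fun m => inner ℂ (u.val m) (v.val m))) :=
  tendsto_ulim 𝓤 (PreU.inner_bdd u v)

variable (V 𝓤)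

/-- The semi-inner product. -/
noncomputable abbrev preCore : PreInnerProductSpace.Core ℂ (PreU V 𝓤) where
  inner u v := ulim 𝓤 fun m => inner ℂ (u.val m) (v.val m)
  conj_inner_symm u v := by
    symm
    apply ulim_eq
    have h := (PreU.tendsto_inner v u)
    have h2 := (Complex.continuous_conj.tendsto _).comp h
    refine h2.congr fun m => ?_
    simp only [Function.comp]
    exact inner_conj_symm _ _
  re_inner_nonneg u := by
    have h := (PreU.tendsto_inner u u)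
    have h2 := (Complex.continuous_re.tendsto _).comp h
    refine ge_of_tendsto' h2 fun m => ?_
    simp only [Function.comp]
    exact inner_self_nonneg (𝕜 := ℂ)
  add_left u v z := by
    apply ulim_eq
    have h := (PreU.tendsto_inner u z).add (PreU.tendsto_inner v z)
    refine h.congr fun m => ?_
    rw [PreU.val_add, inner_add_left]
  smul_left u v c := by
    apply ulim_eq
    have h := (PreU.tendsto_inner u v).const_mul (starRingEnd ℂ c)
    refine h.congr fun m => ?_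
    rw [PreU.val_smul, inner_smul_left]

noncomputable instance : SeminormedAddCommGroup (PreU V 𝓤) :=
  InnerProductSpace.Core.toSeminormedAddCommGroup (c := preCore V 𝓤)
noncomputable instance : InnerProductSpace ℂ (PreU V 𝓤) :=
  InnerProductSpace.ofCore (preCore V 𝓤)

/-- The ultraproduct Hilbert space. -/
abbrev UP : Type := Completion (PreU V 𝓤)

variable {V 𝓤}

theorem PreU.inner_def (u v : PreU V 𝓤) :
    (inner ℂ u v : ℂ) = ulim 𝓤 fun m => inner ℂ (u.val m) (v.val m) := rfl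

theorem PreU.tendsto_inner' (u v : PreU V 𝓤) :
    Tendsto (fun m => (inner ℂ (u.val m) (v.val m) : ℂ)) 𝓤 (𝓝 (inner ℂ u v)) :=
  PreU.tendsto_inner u v

theorem PreU.tendsto_norm_sq (u : PreU V 𝓤) :
    Tendsto (fun m => ‖u.val m‖ ^ 2) 𝓤 (𝓝 (‖u‖ ^ 2)) := by
  have h := (Complex.continuous_re.tendsto _).comp (PreU.tendsto_inner' u u)
  have e : (inner ℂ u u : ℂ).re = ‖u‖ ^ 2 := by
    rw [inner_self_eq_norm_sq_to_K]
    norm_cast
  rw [e] at h
  refine h.congr fun m => ?_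
  simp only [Function.comp]
  rw [inner_self_eq_norm_sq_to_K]
  norm_cast

theorem PreU.tendsto_norm (u : PreU V 𝓤) :
    Tendsto (fun m => ‖u.val m‖) 𝓤 (𝓝 ‖u‖) := by
  have h := (Real.continuous_sqrt.tendsto _).comp (PreU.tendsto_norm_sq u)
  rw [Real.sqrt_sq (norm_nonneg _)] at h
  refine h.congr fun m => ?_
  simp only [Function.comp]
  rw [Real.sqrt_sq (norm_nonneg _)]

theorem PreU.coe_eq {u v : PreU V 𝓤}
    (h : Tendsto (fun m => ‖u.val m - v.val m‖) 𝓤 (𝓝 0)) : (u : UP V 𝓤) = (v : UP V 𝓤) := by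
  have h1 := PreU.tendsto_norm (u - v)
  have h2 : ‖u - v‖ = 0 := tendsto_nhds_unique h1 h
  have h3 : ‖((u - v : PreU V 𝓤) : UP V 𝓤)‖ = 0 := by rw [Completion.norm_coe, h2]
  rw [norm_eq_zero, Completion.coe_sub, sub_eq_zero] at h3
  exact h3

variable (V) in
/-- Bounded families of operators. -/
def BOp : Type := {T : ∀ m, V m →L[ℂ] V m // ∃ C : ℝ, ∀ m, ‖T m‖ ≤ C}

/-- The action on bounded sequences. -/
noncomputable def preOp (T : BOp V) : PreU V 𝓤 →L[ℂ] PreU V 𝓤 :=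
  LinearMap.mkContinuousOfExistsBound
    ({ toFun := fun u => PreU.mk (fun m => T.1 m (u.val m)) (by
          obtain ⟨C, hC⟩ := T.2
          obtain ⟨D, hD⟩ := u.bdd
          exact ⟨C * D, fun m => (T.1 m).le_of_opNorm_le_of_le (hC m) (hD m)⟩)
       map_add' := fun u v => PreU.ext' fun m => by simp
       map_smul' := fun c u => PreU.ext' fun m => by simp } : PreU V 𝓤 →ₗ[ℂ] PreU V 𝓤) (by
    obtain ⟨C, hC⟩ := T.2
    refine ⟨C, fun u => ?_⟩
    refine le_of_tendsto_of_tendsto' (PreU.tendsto_norm _) ((PreU.tendsto_norm u).const_mul C)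
      fun m => ?_
    exact (T.1 m).le_of_opNorm_le (hC m) _)

@[simp] theorem preOp_val (T : BOp V) (u : PreU V 𝓤) (m : ℕ) :
    (preOp T u).val m = T.1 m (u.val m) := rfl

/-- The action on the ultraproduct. -/
noncomputable def hat (𝓤 : Ultrafilter ℕ) (T : BOp V) : UP V 𝓤 →L[ℂ] UP V 𝓤 :=
  (preOp (𝓤 := 𝓤) T).completion

@[simp] theorem hat_coe (T : BOp V) (u : PreU V 𝓤) :
    hat 𝓤 T (u : UP V 𝓤) = ((preOp T u : PreU V 𝓤) : UP V 𝓤) :=
  ContinuousLinearMap.completion_apply_coe _ _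

theorem op_ext {A B : UP V 𝓤 →L[ℂ] UP V 𝓤}
    (h : ∀ u : PreU V 𝓤, A (u : UP V 𝓤) = B (u : UP V 𝓤)) : A = B := by
  ext x
  induction x using Completion.induction_on with
  | hp => exact isClosed_eq A.continuous B.continuous
  | ih u => exact h u

variable [∀ m, CompleteSpace (V m)]

theorem hat_star {S T : BOp V} (h : ∀ m, star (S.1 m) = T.1 m) :
    star (hat 𝓤 S) = hat 𝓤 T := by
  symm
  rw [ContinuousLinearMap.star_eq_adjoint]
  refine (ContinuousLinearMap.eq_adjoint_iff _ _).mpr ?_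
  intro x y
  induction x, y using Completion.induction_on₂ with
  | hp => apply isClosed_eq <;> fun_prop
  | ih u v =>
    rw [hat_coe, hat_coe, Completion.inner_coe, Completion.inner_coe]
    refine tendsto_nhds_unique (PreU.tendsto_inner' _ _) ?_
    refine (PreU.tendsto_inner' _ _).congr fun m => ?_
    rw [preOp_val, preOp_val, ← h m, ContinuousLinearMap.star_eq_adjoint,
      ContinuousLinearMap.adjoint_inner_left]

end space

end Pool.Agent.Helper64_FR
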