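import Pool.Agent.Helper64_FR.Basic
import Pool.Agent.Helper64_FR.Ultra

/-!
# LIM: the limit object of a sequence of representations with Casimir tending to infinity
-/

open MeasureTheory Matrix Filter Topology UniformSpace

namespace Pool.Agent.Helper64_FR

section lim

variable {V : ℕ → Type} [∀ m, NormedAddCommGroup (V m)] [∀ m, InnerProductSpace ℂ (V m)]
  {𝓤 : Ultrafilter ℕ}

/-- evaluation as an additive map -/
def PreU.valHom (m : ℕ) : PreU V 𝓤 →+ V m where
  toFun u := u.val m
  map_zero' := rfl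
  map_add' _ _ := rfl

theorem PreU.val_sum {ι : Type*} (s : Finset ι) (f : ι → PreU V 𝓤) (m : ℕ) :
    (∑ i ∈ s, f i).val m = ∑ i ∈ s, (f i).val m := by
  have := map_sum (PreU.valHom (V := V) (𝓤 := 𝓤) m) f s
  exact this

theorem PreU.coe_sum {ι : Type*} (s : Finset ι) (f : ι → PreU V 𝓤) :
    ((∑ i ∈ s, f i : PreU V 𝓤) : UP V 𝓤) = ∑ i ∈ s, (f i : UP V 𝓤) := by
  have := map_sum (Completion.toComplL (𝕜 := ℂ) (E := PreU V 𝓤)) f s
  exact this

theorem PreU.coe_smul' (c : ℂ) (u : PreU V 𝓤) :
    ((c • u : PreU V 𝓤) : UP V 𝓤) = c • (u : UP V 𝓤) :=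
  Completion.coe_smul c u

/-- comparison of two elements, up to a factor tending to zero -/
theorem PreU.coe_eq_of_le {u v w : PreU V 𝓤} {ε : ℕ → ℝ} (hε : Tendsto ε 𝓤 (𝓝 0))
    (h : ∀ᶠ m in 𝓤, ‖u.val m - v.val m‖ ≤ ε m * ‖w.val m‖) : (u : UP V 𝓤) = (v : UP V 𝓤) := by
  apply PreU.coe_eq
  have h1 : Tendsto (fun m => ε m * ‖w.val m‖) 𝓤 (𝓝 0) := by
    have := hε.mul (PreU.tendsto_norm w)
    rwa [zero_mul] at this
  exact squeeze_zero' (Eventually.of_forall fun m => norm_nonneg _) h h1

theorem PreU.coe_eq_of_eventually {u v : PreU V 𝓤}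
    (h : ∀ᶠ m in 𝓤, u.val m = v.val m) : (u : UP V 𝓤) = (v : UP V 𝓤) := by
  apply PreU.coe_eq
  refine (tendsto_congr' ?_).mpr tendsto_const_nhds
  filter_upwards [h] with m hm
  rw [hm, sub_self, norm_zero]

end lim

section main

variable {n : ℕ} (ρ : ℕ → URep n)
  (D : ∀ m, Matrix (Fin n) (Fin n) ℂ →ₗ[ℂ] ((ρ m).Sp →L[ℂ] (ρ m).Sp)) (c : ℕ → ℝ)

/-- the group operators -/
noncomputable def UOp (g : UU n) : BOp (fun m => (ρ m).Sp) :=
  ⟨fun m => (ρ m).op g, 1, fun m => (ρ m).norm_op_le g⟩

/-- the projections -/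
noncomputable def POp (hF : Stmt_FIX) (B : Finset (Fin n)) : BOp (fun m => (ρ m).Sp) :=
  ⟨fun m => (ρ m).P B, 1, fun m => norm_le_one_of_proj (hF n (ρ m) B).2.2.1
    (hF n (ρ m) B).2.2.2⟩

theorem norm_le_sqrt (hc : ∀ m i j, ‖D m (EE i j)‖ ^ 2 ≤ c m) (m : ℕ) (i j : Fin n) :
    ‖D m (EE i j)‖ ≤ √(c m) := Real.le_sqrt_of_sq_le (hc m i j)

/-- the normalized symbols -/
noncomputable def aOp (hc : ∀ m i j, ‖D m (EE i j)‖ ^ 2 ≤ c m) (i j : Fin n) :
    BOp (fun m => (ρ m).Sp) :=
  ⟨fun m => (((√(c m))⁻¹ : ℝ) : ℂ) • D m (EE i j), 1, fun m => by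
    rw [norm_smul, Complex.norm_real, Real.norm_of_nonneg (by positivity)]
    have h1 := norm_le_sqrt ρ D c hc m i j
    rcases eq_or_lt_of_le (Real.sqrt_nonneg (c m)) with h0 | h0
    · rw [← h0]; simp
    · rw [inv_mul_le_iff₀ h0, mul_one]
      exact h1⟩

theorem EE_mul_EE (i j k l : Fin n) :
    (EE i j * EE k l : Matrix (Fin n) (Fin n) ℂ) = if j = k then EE i l else 0 := by
  by_cases h : j = k
  · subst h
    simp
  · simp [h]

variable {ρ D c}

theorem lim_comm (hD : ∀ m, IsDer (ρ m) (D m)) (hc : ∀ m i j, ‖D m (EE i j)‖ ^ 2 ≤ c m)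
    (i j k l : Fin n) (m : ℕ) :
    ‖D m (EE i j) * D m (EE k l) - D m (EE k l) * D m (EE i j)‖ ≤ 2 * √(c m) := by
  rw [(hD m).comm_eq, EE_mul_EE, EE_mul_EE, map_sub]
  have h1 : ∀ (p : Prop) [Decidable p] (a b : Fin n),
      ‖D m (if p then EE a b else 0)‖ ≤ √(c m) := by
    intro p _ a b
    split_ifs
    · exact norm_le_sqrt ρ D c hc m a b
    · rw [map_zero, norm_zero]; exact Real.sqrt_nonneg _
  calc _ ≤ _ := norm_sub_le _ _
    _ ≤ √(c m) + √(c m) := add_le_add (h1 _ _ _) (h1 _ _ _)
    _ = _ := by ring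

end main

theorem LIM_proof (hF : Stmt_FIX) (hP : Stmt_DERP) : Stmt_LIM := by
  intro n ρ D c v hD hC hc hlim hv
  have h𝓤 : (↑(hyperfilter ℕ) : Filter ℕ) ≤ atTop := Nat.hyperfilter_le_atTop
  set 𝓤 : Ultrafilter ℕ := hyperfilter ℕ with h𝓤def
  have hlim' : Tendsto c 𝓤 atTop := hlim.mono_left h𝓤
  have hpos : ∀ᶠ m in (𝓤 : Filter ℕ), 0 < c m := hlim'.eventually_gt_atTop 0
  have hinv : Tendsto (fun m => 2 * (√(c m))⁻¹) 𝓤 (𝓝 0) := by
    have h1 : Tendsto (fun m => (√(c m))⁻¹) 𝓤 (𝓝 0) :=
      (Real.tendsto_sqrt_atTop.comp hlim').inv_tendsto_atTop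
    have h2 := h1.const_mul (2 : ℝ)
    rwa [mul_zero] at h2
  have hastar : ∀ i j, star (hat 𝓤 (aOp ρ D c hc i j)) = hat 𝓤 (aOp ρ D c hc j i) := by
    intro i j
    refine hat_star fun m => ?_
    show star ((((√(c m))⁻¹ : ℝ) : ℂ) • D m (EE i j)) = (((√(c m))⁻¹ : ℝ) : ℂ) • D m (EE j i)
    rw [star_smul, (hD m).star_eq]
    congr 1
    · simp
    · congr 1
      ext p q
      simp [Matrix.star_apply, Matrix.single_apply, and_comm]
  let L : LimData n (UP (fun m => (ρ m).Sp) 𝓤) :=
    { a := fun i j => hat 𝓤 (aOp ρ D c hc i j)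
      U := fun g => hat 𝓤 (UOp ρ g)
      P := fun B => hat 𝓤 (POp ρ hF B)
      a_comm := by
        intro i j k l
        refine op_ext fun u => ?_
        rw [mul_apply_eq_comp, mul_apply_eq_comp]
        simp only [hat_coe]
        refine PreU.coe_eq_of_le (w := u) hinv ?_
        filter_upwards [hpos] with m hm
        have hs : 0 < √(c m) := Real.sqrt_pos.mpr hm
        have key : (preOp (aOp ρ D c hc i j) (preOp (aOp ρ D c hc k l) u)).val m -
            (preOp (aOp ρ D c hc k l) (preOp (aOp ρ D c hc i j) u)).val m =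
            ((((√(c m))⁻¹ : ℝ) : ℂ) * (((√(c m))⁻¹ : ℝ) : ℂ)) •
              ((D m (EE i j) * D m (EE k l) - D m (EE k l) * D m (EE i j)) (u.val m)) := by
          simp only [preOp_val, aOp, _root_.smul_apply, map_smul, smul_smul,
            _root_.sub_apply, mul_apply_eq_comp, smul_sub]
        rw [key, norm_smul, norm_mul, Complex.norm_real, Real.norm_of_nonneg (by positivity)]
        calc _ ≤ (√(c m))⁻¹ * (√(c m))⁻¹ * (2 * √(c m) * ‖u.val m‖) := by
              refine mul_le_mul_of_nonneg_left ?_ (by positivity)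
              exact ContinuousLinearMap.le_of_opNorm_le _ (lim_comm hD hc i j k l m) _
          _ = 2 * (√(c m))⁻¹ * ‖u.val m‖ := by field_simp
      a_star := hastar
      a_sum := by
        refine op_ext fun u => ?_
        simp only [hastar, _root_.sum_apply, mul_apply_eq_comp, hat_coe,
          one_apply_eq_self]
        simp only [← PreU.coe_sum]
        refine PreU.coe_eq_of_eventually ?_
        filter_upwards [hpos] with m hm
        have hs : 0 < √(c m) := Real.sqrt_pos.mpr hm
        simp only [PreU.val_sum, preOp_val, aOp, _root_.smul_apply, map_smul,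
          smul_smul]
        have h1 := congrArg (fun T => T (u.val m)) (hC m)
        simp only [_root_.sum_apply, mul_apply_eq_comp,
          _root_.smul_apply, one_apply_eq_self] at h1
        have hst : ∀ i j : Fin n, star (D m (EE i j)) = D m (EE j i) := by
          intro i j
          rw [(hD m).star_eq]
          congr 1
          ext p q
          simp [Matrix.star_apply, Matrix.single_apply, and_comm]
        simp only [hst] at h1
        simp only [← Finset.smul_sum]
        rw [h1, smul_smul]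
        have h2 : ((((√(c m))⁻¹ : ℝ) : ℂ) * (((√(c m))⁻¹ : ℝ) : ℂ)) * ((c m : ℝ) : ℂ) = 1 := by
          rw [← Complex.ofReal_mul, ← Complex.ofReal_mul]
          rw [← Complex.ofReal_one]
          congr 1
          rw [← mul_inv, Real.mul_self_sqrt hm.le, inv_mul_cancel₀ hm.ne']
        rw [h2, one_smul]
      U_one := by
        refine op_ext fun u => ?_
        rw [hat_coe, one_apply_eq_self]
        congr 1
        refine PreU.ext' fun m => ?_
        rw [preOp_val]
        show (ρ m).op 1 (u.val m) = _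
        rw [URep.op_one, one_apply_eq_self]
      U_mul := by
        intro g h
        refine op_ext fun u => ?_
        rw [mul_apply_eq_comp, hat_coe, hat_coe, hat_coe]
        congr 1
        refine PreU.ext' fun m => ?_
        simp only [preOp_val]
        show (ρ m).op (g * h) (u.val m) = (ρ m).op g ((ρ m).op h (u.val m))
        rw [URep.op_mul, mul_apply_eq_comp]
      U_star := by
        intro g
        exact hat_star fun m => (ρ m).op_star g
      U_conj := by
        intro g i j
        refine op_ext fun u => ?_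
        rw [mul_apply_eq_comp, mul_apply_eq_comp]
        simp only [hat_coe, _root_.sum_apply, _root_.smul_apply]
        simp only [← PreU.coe_smul', ← PreU.coe_sum]
        congr 1
        refine PreU.ext' fun m => ?_
        simp only [PreU.val_sum, PreU.val_smul, preOp_val]
        show (ρ m).op g (((((√(c m))⁻¹ : ℝ) : ℂ) • D m (EE i j)) (u.val m)) = ∑ k, ∑ l,
          ((g : Matrix (Fin n) (Fin n) ℂ) k i *
            starRingEnd ℂ ((g : Matrix (Fin n) (Fin n) ℂ) l j)) •
              ((((√(c m))⁻¹ : ℝ) : ℂ) • D m (EE k l)) ((ρ m).op g (u.val m))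
        have h1 := congrArg (fun T => T (u.val m)) ((hD m).conj_eq g (EE i j))
        simp only [mul_apply_eq_comp, conj_EE, map_sum, map_smul, _root_.sum_apply,
          _root_.smul_apply] at h1
        rw [_root_.smul_apply, map_smul, h1, Finset.smul_sum]
        refine Finset.sum_congr rfl fun k _ => ?_
        rw [Finset.smul_sum]
        refine Finset.sum_congr rfl fun l _ => ?_
        rw [_root_.smul_apply, smul_comm]
      P_star := by
        intro B
        exact hat_star fun m => (hF n (ρ m) B).2.2.1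
      P_idem := by
        intro B
        refine op_ext fun u => ?_
        rw [mul_apply_eq_comp, hat_coe, hat_coe]
        congr 1
        refine PreU.ext' fun m => ?_
        simp only [preOp_val]
        show (ρ m).P B ((ρ m).P B (u.val m)) = (ρ m).P B (u.val m)
        rw [← mul_apply_eq_comp, (hF n (ρ m) B).2.2.2]
      U_P := by
        intro B g hg
        refine op_ext fun u => ?_
        rw [mul_apply_eq_comp, hat_coe, hat_coe]
        congr 1
        refine PreU.ext' fun m => ?_
        simp only [preOp_val]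
        show (ρ m).op g ((ρ m).P B (u.val m)) = (ρ m).P B (u.val m)
        rw [← mul_apply_eq_comp, (hF n (ρ m) B).1 g hg]
      a_P := by
        intro B i hi j hj
        refine op_ext fun u => ?_
        rw [mul_apply_eq_comp, hat_coe, hat_coe, _root_.zero_apply]
        rw [← Completion.coe_zero]
        congr 1
        refine PreU.ext' fun m => ?_
        simp only [preOp_val, PreU.val_zero]
        show ((((√(c m))⁻¹ : ℝ) : ℂ) • D m (EE i j)) ((ρ m).P B (u.val m)) = 0
        rw [_root_.smul_apply, ← mul_apply_eq_comp, hP n (ρ m) (D m) (hD m) B i j hi hj,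
          _root_.zero_apply, smul_zero] }
  refine ⟨𝓤, UP (fun m => (ρ m).Sp) 𝓤, inferInstance, inferInstance, inferInstance, L,
    ((PreU.mk v ⟨1, fun m => (hv m).le⟩ : PreU (fun m => (ρ m).Sp) 𝓤) :
      UP (fun m => (ρ m).Sp) 𝓤), ?_, ?_⟩
  · rw [Completion.norm_coe]
    refine tendsto_nhds_unique (PreU.tendsto_norm _) ?_
    refine (tendsto_congr fun m => ?_).mpr tendsto_const_nhds
    rw [PreU.val_mk, hv m]
  · intro B
    set u : PreU (fun m => (ρ m).Sp) 𝓤 := PreU.mk v ⟨1, fun m => (hv m).le⟩ with hu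
    have h1 := PreU.tendsto_norm_sq (u - preOp (POp ρ hF B) u)
    have h2 : ‖((u : UP (fun m => (ρ m).Sp) 𝓤)) - L.P B (u : UP (fun m => (ρ m).Sp) 𝓤)‖ =
        ‖u - preOp (POp ρ hF B) u‖ := by
      show ‖((u : UP (fun m => (ρ m).Sp) 𝓤)) - hat 𝓤 (POp ρ hF B) u‖ = _
      rw [hat_coe, ← Completion.coe_sub, Completion.norm_coe]
    rw [h2]
    exact h1

end Pool.Agent.Helper64_FR
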