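import Pool.Agent.Helper64_FR.Defs

/-!
# Statements of the modules of the finite reduction theorem (problem MP_3b0ba7_pr)
-/

open MeasureTheory Matrix Filter Topology

namespace Pool.Agent.Helper64_FR

/-- the matrix unit -/
abbrev EE {n : ℕ} (i j : Fin n) : Matrix (Fin n) (Fin n) ℂ := Matrix.single i j 1

/-- FIX: the average is the orthogonal projection onto the invariant vectors. -/
def Stmt_FIX : Prop := ∀ (n : ℕ) (ρ : URep n) (B : Finset (Fin n)),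
  (∀ h ∈ UB B, ρ.op h * ρ.P B = ρ.P B) ∧
  (∀ x : ρ.Sp, (∀ h ∈ UB B, ρ.op h x = x) → ρ.P B x = x) ∧
  star (ρ.P B) = ρ.P B ∧ ρ.P B * ρ.P B = ρ.P B

/-- The derived representation, extended complex linearly to all matrices. -/
structure IsDer {n : ℕ} (ρ : URep n)
    (D : Matrix (Fin n) (Fin n) ℂ →ₗ[ℂ] (ρ.Sp →L[ℂ] ρ.Sp)) : Prop where
  star_eq : ∀ Z, star (D Z) = D (star Z)
  conj_eq : ∀ (g : UU n) (Z : Matrix (Fin n) (Fin n) ℂ),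
    ρ.op g * D Z = D ((g : Matrix (Fin n) (Fin n) ℂ) * Z * star (g : Matrix (Fin n) (Fin n) ℂ)) *
      ρ.op g
  comm_eq : ∀ Z W, D Z * D W - D W * D Z = D (Z * W - W * Z)
  exp_eq : ∀ (X : Matrix (Fin n) (Fin n) ℂ) (g : UU n), star X = -X →
    (g : Matrix (Fin n) (Fin n) ℂ) = NormedSpace.exp X → ρ.op g = NormedSpace.exp (D X)

/-- DER: existence of the derived representation. -/
def Stmt_DER : Prop := ∀ (n : ℕ) (ρ : URep n), ∃ D, IsDer ρ D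

/-- DERP: matrices supported on `B × B` kill the `U_B`-invariant vectors. -/
def Stmt_DERP : Prop := ∀ (n : ℕ) (ρ : URep n)
  (D : Matrix (Fin n) (Fin n) ℂ →ₗ[ℂ] (ρ.Sp →L[ℂ] ρ.Sp)), IsDer ρ D →
  ∀ (B : Finset (Fin n)) (i j : Fin n), i ∈ B → j ∈ B → D (EE i j) * ρ.P B = 0

/-- The Casimir operator is the scalar `c`. -/
def IsCas {n : ℕ} (ρ : URep n) (D : Matrix (Fin n) (Fin n) ℂ →ₗ[ℂ] (ρ.Sp →L[ℂ] ρ.Sp))
    (c : ℝ) : Prop :=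
  ∑ i, ∑ j, star (D (EE i j)) * D (EE i j) = (c : ℂ) • (1 : ρ.Sp →L[ℂ] ρ.Sp)

/-- CAS: the Casimir operator of an irreducible representation is a scalar. -/
def Stmt_CAS : Prop := ∀ (n : ℕ) (ρ : URep n)
  (D : Matrix (Fin n) (Fin n) ℂ →ₗ[ℂ] (ρ.Sp →L[ℂ] ρ.Sp)), ρ.Irred → IsDer ρ D →
  ∃ c : ℝ, 0 ≤ c ∧ IsCas ρ D c ∧ ∀ i j, ‖D (EE i j)‖ ^ 2 ≤ c

/-- EQC: uniform equicontinuity at the identity. -/
def Stmt_EQC : Prop := ∀ (n : ℕ) (C : ℝ), ∃ N ∈ 𝓝 (1 : UU n), ∀ (ρ : URep n)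
  (D : Matrix (Fin n) (Fin n) ℂ →ₗ[ℂ] (ρ.Sp →L[ℂ] ρ.Sp)), IsDer ρ D →
  (∀ i j, ‖D (EE i j)‖ ≤ C) → ∀ g ∈ N, ‖ρ.op g - 1‖ ≤ 1 / 2

/-- The Haar probability measure of the whole group. -/
noncomputable def haarU (n : ℕ) : Measure (UU n) := Measure.haarMeasure ⊤

/-- ORT: Schur orthogonality for non-isomorphic irreducible representations. -/
def Stmt_ORT : Prop := ∀ (n : ℕ) (ρ σ : URep n), ρ.Irred → σ.Irred → ¬ ρ.Iso σ →
  ∀ (x y : ρ.Sp) (x' y' : σ.Sp),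
    ∫ g : UU n, inner ℂ x (ρ.op g y) * starRingEnd ℂ (inner ℂ x' (σ.op g y')) ∂(haarU n) = 0

/-- FIN: for pairwise non-isomorphic irreducible representations the Casimir tends to infinity. -/
def Stmt_FIN : Prop := ∀ (n : ℕ) (ρ : ℕ → URep n)
  (D : ∀ m, Matrix (Fin n) (Fin n) ℂ →ₗ[ℂ] ((ρ m).Sp →L[ℂ] (ρ m).Sp)) (c : ℕ → ℝ),
  (∀ m, (ρ m).Irred) → (∀ m k, m < k → ¬ (ρ k).Iso (ρ m)) → (∀ m, IsDer (ρ m) (D m)) →
  (∀ m i j, ‖D m (EE i j)‖ ^ 2 ≤ c m) → Tendsto c atTop atTop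

/-- The limit object. -/
structure LimData (n : ℕ) (H : Type) [NormedAddCommGroup H] [InnerProductSpace ℂ H]
    [CompleteSpace H] where
  /-- the commuting symbols -/
  a : Fin n → Fin n → (H →L[ℂ] H)
  /-- the group action -/
  U : UU n → (H →L[ℂ] H)
  /-- the projections -/
  P : Finset (Fin n) → (H →L[ℂ] H)
  a_comm : ∀ i j k l, a i j * a k l = a k l * a i j
  a_star : ∀ i j, star (a i j) = a j i
  a_sum : ∑ i, ∑ j, star (a i j) * a i j = 1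
  U_one : U 1 = 1
  U_mul : ∀ g h, U (g * h) = U g * U h
  U_star : ∀ g, star (U g) = U g⁻¹
  U_conj : ∀ (g : UU n) (i j : Fin n), U g * a i j =
    (∑ k, ∑ l, ((g : Matrix (Fin n) (Fin n) ℂ) k i *
      starRingEnd ℂ ((g : Matrix (Fin n) (Fin n) ℂ) l j)) • a k l) * U g
  P_star : ∀ B, star (P B) = P B
  P_idem : ∀ B, P B * P B = P B
  U_P : ∀ B, ∀ g ∈ UB B, U g * P B = P B
  a_P : ∀ B, ∀ i ∈ B, ∀ j ∈ B, a i j * P B = 0

/-- The block `B` crosses the cut `S`. -/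
def Crosses {n : ℕ} (B S : Finset (Fin n)) : Prop := (∃ i ∈ B, i ∈ S) ∧ ∃ j ∈ B, j ∉ S

open scoped Classical in
/-- `f` dominates, up to the factor `1 - δ`, a convex combination of cuts. -/
def CutCert (n : ℕ) (δ : ℝ) (f : Finset (Fin n) → ℝ) : Prop :=
  ∃ p : Finset (Fin n) → ℝ, (∀ S, 0 ≤ p S) ∧
    (∀ S, p S ≠ 0 → S.Nonempty ∧ S ≠ Finset.univ) ∧ ∑ S, p S = 1 ∧
    ∀ B, (1 - δ) * ∑ S, (if Crosses B S then p S else 0) ≤ f B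

/-- PAT: in the limit object every unit vector dominates a convex combination of cuts. -/
def Stmt_PAT : Prop := ∀ (n : ℕ), 2 ≤ n → ∀ (H : Type) [NormedAddCommGroup H]
  [InnerProductSpace ℂ H] [CompleteSpace H] (L : LimData n H) (x : H), ‖x‖ = 1 →
  CutCert n 0 (fun B => ‖x - L.P B x‖ ^ 2)

/-- LIM: existence of the limit object. -/
def Stmt_LIM : Prop := ∀ (n : ℕ) (ρ : ℕ → URep n)
  (D : ∀ m, Matrix (Fin n) (Fin n) ℂ →ₗ[ℂ] ((ρ m).Sp →L[ℂ] (ρ m).Sp)) (c : ℕ → ℝ)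
  (v : ∀ m, (ρ m).Sp), (∀ m, IsDer (ρ m) (D m)) → (∀ m, IsCas (ρ m) (D m) (c m)) →
  (∀ m i j, ‖D m (EE i j)‖ ^ 2 ≤ c m) → Tendsto c atTop atTop → (∀ m, ‖v m‖ = 1) →
  ∃ (𝓤 : Ultrafilter ℕ) (H : Type) (_ : NormedAddCommGroup H) (_ : InnerProductSpace ℂ H)
    (_ : CompleteSpace H) (L : LimData n H) (x : H), ‖x‖ = 1 ∧
    ∀ B, Tendsto (fun m => ‖v m - (ρ m).P B (v m)‖ ^ 2) 𝓤 (𝓝 (‖x - L.P B x‖ ^ 2))

/-- CERT: all but finitely many irreducible representations dominate cuts. -/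
def Stmt_CERT : Prop := ∀ (n : ℕ), 2 ≤ n → ∀ δ : ℝ, 0 < δ → ∃ F : Finset (URep n),
  ∀ ρ : URep n, ρ.Irred → (∀ σ ∈ F, ¬ ρ.Iso σ) → ∀ v : ρ.Sp, ‖v‖ = 1 →
    CutCert n δ (fun B => ‖v - ρ.P B v‖ ^ 2)

open scoped Classical in
/-- The weight of the blocks, other than `[n]`, that cross the cut `S`. -/
noncomputable def cutW {n : ℕ} (w : Finset (Fin n) → ℝ) (S : Finset (Fin n)) : ℝ :=
  ∑ B : Finset (Fin n), if B ≠ Finset.univ ∧ Crosses B S then w B else 0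

/-- LOW: the lower bound for the smallest eigenvalue, from the certificate. -/
def Stmt_LOW : Prop := ∀ (n : ℕ), 2 ≤ n → ∀ (δ : ℝ), 0 < δ → δ < 1 → ∀ (ρ : URep n),
  ρ.Irred → (∀ v : ρ.Sp, ‖v‖ = 1 → CutCert n δ (fun B => ‖v - ρ.P B v‖ ^ 2)) →
  ∀ w : Finset (Fin n) → ℝ, (∀ B, 0 ≤ w B) → ∃ S : Finset (Fin n), S.Nonempty ∧
    S ≠ Finset.univ ∧ w Finset.univ + (1 - δ) * cutW w S ≤ ρ.lamMin w

/-- UP: the upper bound for the adjoint representation. -/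
def Stmt_UP : Prop := ∀ (n : ℕ), 2 ≤ n → ∀ (α : URep n), α.IsAdjoint →
  ∀ w : Finset (Fin n) → ℝ, (∀ B, 0 ≤ w B) → ∀ S : Finset (Fin n), S.Nonempty →
    S ≠ Finset.univ → α.lamMin w ≤ w Finset.univ + (1 - 1 / ((n : ℝ) - 1) ^ 2) * cutW w S

end Pool.Agent.Helper64_FR
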